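import Pool.Agent.Helper93.Thurston.Space

/-! The oriented atlas of the doubled triangle. -/

namespace Pool.Agent.Helper93.Thurston

open Set Filter Topology Complex

/-- Jacobian determinant -/
noncomputable def J (L : ℂ →L[ℝ] ℂ) : ℝ := (L 1).re * (L I).im - (L 1).im * (L I).re

lemma apply_eq (L : ℂ →L[ℝ] ℂ) (v : ℂ) : L v = (v.re : ℂ) * L 1 + (v.im : ℂ) * L I := by
  conv_lhs => rw [show v = v.re • (1:ℂ) + v.im • I by
    simp [Complex.re_add_im]]
  rw [map_add, map_smul, map_smul, real_smul, real_smul]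

lemma J_comp (A B : ℂ →L[ℝ] ℂ) : J (A.comp B) = J A * J B := by
  unfold J
  simp only [ContinuousLinearMap.comp_apply]
  rw [apply_eq A (B 1), apply_eq A (B I)]
  simp only [add_re, add_im, mul_re, mul_im, ofReal_re, ofReal_im, zero_mul, sub_zero, add_zero]
  ring

lemma J_id : J (ContinuousLinearMap.id ℝ ℂ) = 1 := by
  simp [J]

lemma exists_pq {L : ℂ →L[ℝ] ℂ} (h : 0 < J L) :
    ∃ p q : ℂ, ‖q‖ < ‖p‖ ∧ ∀ v, L v = p * v + q * (starRingEnd ℂ) v := by
  refine ⟨(L 1 - I * L I) / 2, (L 1 + I * L I) / 2, ?_, fun v => ?_⟩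
  · rw [norm_div, norm_div]
    refine div_lt_div_of_pos_right ?_ (by norm_num)
    rw [← abs_of_nonneg (norm_nonneg (L 1 + I * L I)), ← abs_of_nonneg (norm_nonneg (L 1 - I * L I)),
      ← sq_lt_sq, ← normSq_eq_norm_sq, ← normSq_eq_norm_sq, normSq_apply, normSq_apply]
    unfold J at h
    simp only [add_re, add_im, sub_re, sub_im, mul_re, mul_im, I_re, I_im, zero_mul, one_mul,
      zero_sub, zero_add]
    nlinarith
  · rw [apply_eq L v]
    apply Complex.ext
    · simp only [add_re, mul_re, div_ofNat_re, div_ofNat_im, sub_re, sub_im, add_im, mul_im, I_re,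
        I_im, ofReal_re, ofReal_im, conj_re, conj_im]
      ring
    · simp only [add_re, mul_re, div_ofNat_re, div_ofNat_im, sub_re, sub_im, add_im, mul_im, I_re,
        I_im, ofReal_re, ofReal_im, conj_re, conj_im]
      ring

lemma exists_equiv {L : ℂ →L[ℝ] ℂ} (h : 0 < J L) : ∃ e : ℂ ≃L[ℝ] ℂ, (e : ℂ →L[ℝ] ℂ) = L := by
  have hinj : Function.Injective (L : ℂ →ₗ[ℝ] ℂ) := by
    rw [injective_iff_map_eq_zero]
    intro v hv
    obtain ⟨p, q, hpq, hL⟩ := exists_pq h
    have hv' : L v = 0 := hv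
    rw [hL] at hv'
    by_contra hne
    have h1 : p * v = - (q * (starRingEnd ℂ) v) := by linear_combination hv'
    have h2 : ‖p‖ * ‖v‖ = ‖q‖ * ‖v‖ := by
      rw [← norm_mul, h1, norm_neg, norm_mul, RCLike.norm_conj]
    have h3 : 0 < ‖v‖ := norm_pos_iff.2 hne
    have := mul_right_cancel₀ h3.ne' h2
    linarith
  refine ⟨(LinearEquiv.ofInjectiveEndo (L : ℂ →ₗ[ℝ] ℂ) hinj).toContinuousLinearEquiv, ?_⟩
  ext v
  rfl

lemma J_symm_pos (e : ℂ ≃L[ℝ] ℂ) (h : 0 < J (e : ℂ →L[ℝ] ℂ)) :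
    0 < J (e.symm : ℂ →L[ℝ] ℂ) := by
  have h1 : J ((e : ℂ →L[ℝ] ℂ).comp (e.symm : ℂ →L[ℝ] ℂ)) = 1 := by
    rw [ContinuousLinearEquiv.coe_comp_coe_symm, J_id]
  rw [J_comp] at h1
  by_contra hn
  have := mul_nonpos_of_nonneg_of_nonpos h.le (not_lt.1 hn)
  linarith

namespace D

/-- Reference coordinates on the two faces. -/
noncomputable def kap (p : D) : ℂ := open Classical in if 0 < W p then ⟨X p, Y p⟩ else ⟨Y p, X p⟩

lemma kap_front {p : D} (h : 0 < W p) : kap p = ⟨X p, Y p⟩ := if_pos h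
lemma kap_back {p : D} (h : W p < 0) : kap p = ⟨Y p, X p⟩ := if_neg (not_lt.2 h.le)

lemma eventually_front {x : D} (h : 0 < W x) : ∀ᶠ y in 𝓝 x, 0 < W y :=
  continuousAt_const.eventually_lt continuous_W.continuousAt h

lemma eventually_back {x : D} (h : W x < 0) : ∀ᶠ y in 𝓝 x, W y < 0 :=
  continuous_W.continuousAt.eventually_lt continuousAt_const h

lemma continuous_mkC {T : Type*} [TopologicalSpace T] {a b : T → ℝ} (ha : Continuous a)
    (hb : Continuous b) : Continuous fun t => (⟨a t, b t⟩ : ℂ) :=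
  Complex.equivRealProdCLM.symm.continuous.comp (ha.prodMk hb)

lemma continuousAt_kap {x : D} (h : W x ≠ 0) : ContinuousAt kap x := by
  rcases lt_or_gt_of_ne h with h | h
  · have h1 : ContinuousAt (fun p : D => (⟨Y p, X p⟩ : ℂ)) x :=
      (continuous_mkC continuous_Y continuous_X).continuousAt
    refine h1.congr ?_
    filter_upwards [eventually_back h] with y hy
    exact (kap_back hy).symm
  · have h1 : ContinuousAt (fun p : D => (⟨X p, Y p⟩ : ℂ)) x :=
      (continuous_mkC continuous_X continuous_Y).continuousAt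
    refine h1.congr ?_
    filter_upwards [eventually_front h] with y hy
    exact (kap_front hy).symm

/-- `χ` is, near `x`, a smooth orientation preserving function of the reference coordinate. -/
def GoodAt (χ : D → ℂ) (x : D) : Prop :=
  ∃ (Φ : ℂ → ℂ) (L : ℂ →L[ℝ] ℂ), HasFDerivAt Φ L (kap x) ∧ 0 < J L ∧
    ∀ᶠ y in 𝓝 x, χ y = Φ (kap y)

/-- The open small triangles. -/
def G : Set D := {p | W p ≠ 0 ∧ X p ≠ Y p ∧ Y p ≠ Z p ∧ X p ≠ Z p}

lemma mem_G {p : D} : p ∈ G ↔ W p ≠ 0 ∧ X p ≠ Y p ∧ Y p ≠ Z p ∧ X p ≠ Z p := Iff.rfl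

lemma GoodAt.congr {χ χ' : D → ℂ} {x : D} (h : GoodAt χ x) (he : ∀ᶠ y in 𝓝 x, χ' y = χ y) :
    GoodAt χ' x := by
  obtain ⟨Φ, L, h1, h2, h3⟩ := h
  refine ⟨Φ, L, h1, h2, ?_⟩
  filter_upwards [h3, he] with y hy hy2
  rw [hy2, hy]

/-- The atlas. -/
def Atlas : Set (OpenPartialHomeomorph D ℂ) := {χ | ∀ x ∈ χ.source, x ∈ G → GoodAt χ x}

/-- affine maps `z ↦ c0 + re z * c1 + im z * c2`. -/
noncomputable def aff (c1 c2 : ℂ) : ℂ →L[ℝ] ℂ :=
  reCLM.smulRight c1 + imCLM.smulRight c2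

lemma aff_apply (c1 c2 z : ℂ) : aff c1 c2 z = (z.re : ℂ) * c1 + (z.im : ℂ) * c2 := by
  simp [aff]

lemma J_aff (c1 c2 : ℂ) : J (aff c1 c2) = c1.re * c2.im - c1.im * c2.re := by
  simp [J, aff_apply]

lemma goodAt_front {χ : D → ℂ} {x : D} (hx : 0 < W x) (a0 a1 a2 b0 b1 b2 : ℝ)
    (h : ∀ᶠ y in 𝓝 x, χ y = ⟨a0 + a1 * X y + a2 * Y y, b0 + b1 * X y + b2 * Y y⟩)
    (hJ : 0 < a1 * b2 - a2 * b1) : GoodAt χ x := by
  refine ⟨fun z => ⟨a0, b0⟩ + aff ⟨a1, b1⟩ ⟨a2, b2⟩ z, aff ⟨a1, b1⟩ ⟨a2, b2⟩, ?_, ?_, ?_⟩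
  · exact (aff ⟨a1, b1⟩ ⟨a2, b2⟩).hasFDerivAt.const_add _
  · rw [J_aff]; dsimp only; linarith
  · filter_upwards [h, eventually_front hx] with y hy hy2
    rw [hy, kap_front hy2, aff_apply]
    apply Complex.ext
    · simp only [add_re, mul_re, ofReal_re, ofReal_im]; ring
    · simp only [add_im, mul_im, ofReal_re, ofReal_im]; ring

lemma goodAt_back {χ : D → ℂ} {x : D} (hx : W x < 0) (a0 a1 a2 b0 b1 b2 : ℝ)
    (h : ∀ᶠ y in 𝓝 x, χ y = ⟨a0 + a1 * X y + a2 * Y y, b0 + b1 * X y + b2 * Y y⟩)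
    (hJ : a1 * b2 - a2 * b1 < 0) : GoodAt χ x := by
  refine ⟨fun z => ⟨a0, b0⟩ + aff ⟨a2, b2⟩ ⟨a1, b1⟩ z, aff ⟨a2, b2⟩ ⟨a1, b1⟩, ?_, ?_, ?_⟩
  · exact (aff ⟨a2, b2⟩ ⟨a1, b1⟩).hasFDerivAt.const_add _
  · rw [J_aff]; dsimp only; linarith
  · filter_upwards [h, eventually_back hx] with y hy hy2
    rw [hy, kap_back hy2, aff_apply]
    apply Complex.ext
    · simp only [add_re, mul_re, ofReal_re, ofReal_im]; ring
    · simp only [add_im, mul_im, ofReal_re, ofReal_im]; ring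

lemma GoodAt.comp_holo {χ : D → ℂ} {x : D} (h : GoodAt χ x) {H : ℂ → ℂ} {c : ℂ} (hc : c ≠ 0)
    (hH : HasDerivAt H c (χ x)) : GoodAt (fun y => H (χ y)) x := by
  obtain ⟨Φ, L, h1, h2, h3⟩ := h
  have hx : χ x = Φ (kap x) := h3.self_of_nhds
  rw [hx] at hH
  have h4 := (hH.hasFDerivAt.restrictScalars ℝ).comp (kap x) h1
  refine ⟨H ∘ Φ, _, h4, ?_, ?_⟩
  · rw [J_comp]
    refine mul_pos ?_ h2
    unfold J
    simp only [ContinuousLinearMap.coe_restrictScalars', ContinuousLinearMap.toSpanSingleton_apply,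
      smul_eq_mul, one_mul, mul_re, mul_im, I_re, I_im, zero_mul, zero_sub, zero_add]
    have : 0 < normSq c := normSq_pos.2 hc
    rw [normSq_apply] at this
    linarith
  · filter_upwards [h3] with y hy
    rw [hy]; rfl

/-- Points of `G` are dense. -/
lemma dense_G (x : D) : x ∈ closure G := by
  -- the sign of the face
  obtain ⟨s, hs, hsx⟩ : ∃ s : ℝ, |s| = 1 ∧ W x = s * mn x := by
    rcases le_or_gt 0 (W x) with h | h
    · exact ⟨1, by simp, by rw [← abs_W_eq_mn, abs_of_nonneg h, one_mul]⟩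
    · exact ⟨-1, by simp, by rw [← abs_W_eq_mn, abs_of_neg h]; ring⟩
  set a : ℝ → ℝ := fun t => (1 - t) * X x + t * (1 / 2) with ha
  set b : ℝ → ℝ := fun t => (1 - t) * Y x + t * (1 / 3) with hb
  set m : ℝ → ℝ := fun t => min (a t) (min (b t) (1 - a t - b t)) with hm
  have hc : ∀ t, 1 - a t - b t = (1 - t) * Z x + t * (1 / 6) := by
    intro t
    simp only [ha, hb]
    rw [Z_eq]; ring
  have hmpos : ∀ t ∈ Ioc (0:ℝ) 1, 0 < m t := by
    intro t ht
    have h1 : 0 ≤ 1 - t := by linarith [ht.2]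
    have h2 : 0 < t := ht.1
    refine lt_min ?_ (lt_min ?_ ?_)
    · simp only [ha]
      have := mul_nonneg h1 (X_nonneg x)
      linarith
    · simp only [hb]
      have := mul_nonneg h1 (Y_nonneg x)
      linarith
    · rw [hc]
      have := mul_nonneg h1 (Z_nonneg x)
      linarith
  have hm0 : m 0 = mn x := by
    simp only [hm, hc]
    simp only [ha, hb]
    simp [mn]
  have hval : ∀ t ∈ Icc (0:ℝ) 1, |s * m t| = min (a t) (min (b t) (1 - a t - b t)) := by
    intro t ht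
    rw [abs_mul, hs, one_mul]
    apply abs_of_nonneg
    rcases ht.1.eq_or_lt with h | h
    · rw [← h, hm0]; exact mn_nonneg x
    · exact (hmpos t ⟨h, ht.2⟩).le
  have hcont : ContinuousOn (fun t => mkt (a t) (b t) (s * m t)) (Icc 0 1) := by
    refine continuousOn_mkt ?_ ?_ ?_ hval
    · exact Continuous.continuousOn (by fun_prop)
    · exact Continuous.continuousOn (by fun_prop)
    · exact Continuous.continuousOn (by fun_prop)
  have h0 : mkt (a 0) (b 0) (s * m 0) = x := by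
    have h1 := hval 0 (by simp)
    apply ext'
    · rw [X_mkt h1]; simp [ha]
    · rw [Y_mkt h1]; simp [hb]
    · rw [W_mkt h1, hm0, hsx]
  have ht : Tendsto (fun t => mkt (a t) (b t) (s * m t)) (𝓝[>] 0) (𝓝 x) := by
    have h1 := hcont 0 (by simp)
    rw [ContinuousWithinAt, h0] at h1
    refine h1.mono_left ?_
    rw [nhdsWithin_le_iff]
    exact mem_of_superset (Ioc_mem_nhdsGT zero_lt_one) Ioc_subset_Icc_self
  -- differences of coordinates
  have hdiff : ∀ u v : ℝ, v ≠ 0 → ∀ᶠ t in 𝓝[>] (0:ℝ), (1 - t) * u + t * v ≠ 0 := by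
    intro u v hv
    by_cases hu : u = 0
    · filter_upwards [self_mem_nhdsWithin] with t ht
      rw [hu, mul_zero, zero_add]
      exact mul_ne_zero (ne_of_gt ht) hv
    · have h1 : Tendsto (fun t : ℝ => (1 - t) * u + t * v) (𝓝[>] 0) (𝓝 u) := by
        have : Continuous fun t : ℝ => (1 - t) * u + t * v := by fun_prop
        have h2 := this.tendsto 0
        simp only [sub_zero, one_mul, zero_mul, add_zero] at h2
        exact h2.mono_left nhdsWithin_le_nhds
      exact h1.eventually_ne hu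
  refine mem_closure_of_tendsto ht ?_
  filter_upwards [hdiff (X x - Y x) (1 / 6) (by norm_num), hdiff (Y x - Z x) (1 / 6) (by norm_num),
    hdiff (X x - Z x) (1 / 3) (by norm_num), Ioc_mem_nhdsGT zero_lt_one] with t h1 h2 h3 h4
  have hv := hval t ⟨h4.1.le, h4.2⟩
  rw [mem_G, W_mkt hv, X_mkt hv, Y_mkt hv, Z_mkt hv, hc]
  refine ⟨?_, ?_, ?_, ?_⟩
  · refine mul_ne_zero ?_ (hmpos t h4).ne'
    intro h; rw [h] at hs; simp at hs
  · intro h; apply h1; simp only [ha, hb] at h; linarith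
  · intro h; apply h2; simp only [hb] at h; linarith
  · intro h; apply h3; simp only [ha] at h; linarith

/-- Changes of charts in the atlas preserve the orientation. -/
lemma transition_OP {χ₁ χ₂ : OpenPartialHomeomorph D ℂ} (h1 : χ₁ ∈ Atlas) (h2 : χ₂ ∈ Atlas) :
    OrientationPreserving (χ₁.symm.trans χ₂) := by
  intro z hz
  set e := χ₁.symm.trans χ₂ with he
  refine OPAt_of_dense (U := e.source) (G := {w | χ₁.symm w ∈ G}) e.open_source
    e.continuousOn e.injOn ?_ ?_ hz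
  · intro w hw
    have hw1 : w ∈ χ₁.target := by
      rw [he, OpenPartialHomeomorph.trans_source] at hw; exact hw.1
    rw [mem_closure_iff_nhds]
    intro N hN
    have hx : χ₁.symm w ∈ χ₁.source := χ₁.map_target hw1
    have hct : Tendsto χ₁ (𝓝 (χ₁.symm w)) (𝓝 w) := by
      have := χ₁.continuousAt hx
      rwa [ContinuousAt, χ₁.right_inv hw1] at this
    have hN2 : χ₁ ⁻¹' N ∩ χ₁.source ∈ 𝓝 (χ₁.symm w) :=
      inter_mem (hct hN) (χ₁.open_source.mem_nhds hx)
    obtain ⟨y, ⟨hy1, hy2⟩, hy3⟩ := (mem_closure_iff_nhds.1 (dense_G (χ₁.symm w))) _ hN2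
    refine ⟨χ₁ y, hy1, ?_⟩
    change χ₁.symm (χ₁ y) ∈ G
    rwa [χ₁.left_inv hy2]
  · intro w hwG hw
    have hw' := hw
    rw [he, OpenPartialHomeomorph.trans_source] at hw'
    have hw1 : w ∈ χ₁.target := hw'.1
    have hw2 : χ₁.symm w ∈ χ₂.source := hw'.2
    have hx : χ₁.symm w ∈ χ₁.source := χ₁.map_target hw1
    obtain ⟨Φ1, L1, a1, a2, a3⟩ := h1 _ hx hwG
    obtain ⟨Φ2, L2, b1, b2, b3⟩ := h2 _ hw2 hwG
    obtain ⟨E, hE⟩ := exists_equiv a2
    have hct : ContinuousAt χ₁.symm w := χ₁.symm.continuousAt hw1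
    have hg : ContinuousAt (fun y => kap (χ₁.symm y)) w :=
      ContinuousAt.comp (f := χ₁.symm) (g := kap) (continuousAt_kap hwG.1) hct
    have hL : HasFDerivAt (fun y => kap (χ₁.symm y)) (E.symm : ℂ →L[ℝ] ℂ) w := by
      refine HasFDerivAt.of_local_left_inverse hg (f := Φ1) ?_ ?_
      · rw [hE]; exact a1
      · filter_upwards [hct.eventually a3, χ₁.open_target.mem_nhds hw1] with y hy hy2
        rw [← hy, χ₁.right_inv hy2]
    have hD : HasFDerivAt e (L2.comp (E.symm : ℂ →L[ℝ] ℂ)) w := by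
      have h3 : HasFDerivAt (fun y => Φ2 (kap (χ₁.symm y))) (L2.comp (E.symm : ℂ →L[ℝ] ℂ)) w :=
        HasFDerivAt.comp w b1 hL
      refine h3.congr_of_eventuallyEq ?_
      filter_upwards [hct.eventually b3] with y hy
      rw [← hy]; rfl
    have hJ : 0 < J (L2.comp (E.symm : ℂ →L[ℝ] ℂ)) := by
      rw [J_comp]
      refine mul_pos b2 (J_symm_pos E ?_)
      rw [hE]; exact a2
    obtain ⟨p, q, hpq, hform⟩ := exists_pq hJ
    exact OPAt_of_hasFDerivAt e.open_source e.continuousOn hw hpq hform hD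

/-! the symmetries -/

lemma rot_aux (p : D) : |W p| = min (Y p) (min (Z p) (1 - Y p - Z p)) := by
  rw [abs_W, show 1 - Y p - Z p = X p by have := sum_eq p; linarith]
  rw [min_comm, min_assoc]

/-- the rotation `(X, Y, Z, W) ↦ (Y, Z, X, W)` -/
def rotFun (p : D) : D := mk' (Y p) (Z p) (W p) (rot_aux p)

@[simp] lemma X_rotFun (p : D) : X (rotFun p) = Y p := rfl
@[simp] lemma Y_rotFun (p : D) : Y (rotFun p) = Z p := rfl
@[simp] lemma Z_rotFun (p : D) : Z (rotFun p) = X p := by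
  have := sum_eq p
  have := sum_eq (rotFun p)
  simp only [X_rotFun, Y_rotFun] at this
  linarith
@[simp] lemma W_rotFun (p : D) : W (rotFun p) = W p := rfl

lemma continuous_mk' {T : Type*} [TopologicalSpace T] {a b w : T → ℝ} (ha : Continuous a)
    (hb : Continuous b) (hw : Continuous w)
    (h : ∀ t, |w t| = min (a t) (min (b t) (1 - a t - b t))) :
    Continuous fun t => mk' (a t) (b t) (w t) (h t) :=
  Continuous.subtype_mk (p := fun p : ℝ × ℝ × ℝ =>
    |p.2.2| = min p.1 (min p.2.1 (1 - p.1 - p.2.1))) (ha.prodMk (hb.prodMk hw)) h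

lemma rotFun_three (p : D) : rotFun (rotFun (rotFun p)) = p := by
  apply ext' <;> simp

/-- the rotation, as a homeomorphism -/
def rot : D ≃ₜ D where
  toFun := rotFun
  invFun p := rotFun (rotFun p)
  left_inv p := rotFun_three p
  right_inv p := rotFun_three p
  continuous_toFun := continuous_mk' continuous_Y continuous_Z continuous_W _
  continuous_invFun := by
    have : Continuous rotFun := continuous_mk' continuous_Y continuous_Z continuous_W _
    exact this.comp this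

@[simp] lemma rot_apply (p : D) : rot p = rotFun p := rfl

lemma flip_aux (p : D) : |-W p| = min (Y p) (min (X p) (1 - Y p - X p)) := by
  rw [abs_neg, abs_W, show 1 - Y p - X p = Z p by have := sum_eq p; linarith]
  rw [← min_assoc, ← min_assoc, min_comm (X p)]

/-- the rotation `(X, Y, Z, W) ↦ (Y, X, Z, -W)` -/
def flipFun (p : D) : D := mk' (Y p) (X p) (-W p) (flip_aux p)

@[simp] lemma X_flipFun (p : D) : X (flipFun p) = Y p := rfl
@[simp] lemma Y_flipFun (p : D) : Y (flipFun p) = X p := rfl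
@[simp] lemma Z_flipFun (p : D) : Z (flipFun p) = Z p := by
  have := sum_eq p
  have := sum_eq (flipFun p)
  simp only [X_flipFun, Y_flipFun] at this
  linarith
@[simp] lemma W_flipFun (p : D) : W (flipFun p) = -W p := rfl

lemma flipFun_two (p : D) : flipFun (flipFun p) = p := by
  apply ext' <;> simp

/-- the flip, as a homeomorphism -/
def flip : D ≃ₜ D where
  toFun := flipFun
  invFun := flipFun
  left_inv p := flipFun_two p
  right_inv p := flipFun_two p
  continuous_toFun := continuous_mk' continuous_Y continuous_X continuous_W.neg _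
  continuous_invFun := continuous_mk' continuous_Y continuous_X continuous_W.neg _

@[simp] lemma flip_apply (p : D) : flip p = flipFun p := rfl

lemma mx_rot (p : D) : mx (rotFun p) = mx p := by
  unfold mx; simp only [X_rotFun, Y_rotFun, Z_rotFun]
  rw [max_comm (X p), max_assoc]

lemma mn_rot (p : D) : mn (rotFun p) = mn p := by
  unfold mn; simp only [X_rotFun, Y_rotFun, Z_rotFun]
  rw [min_comm (X p), min_assoc]

lemma mx_flip (p : D) : mx (flipFun p) = mx p := by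
  unfold mx; simp only [X_flipFun, Y_flipFun, Z_flipFun]
  rw [← max_assoc, ← max_assoc, max_comm (X p)]

lemma mn_flip (p : D) : mn (flipFun p) = mn p := by
  unfold mn; simp only [X_flipFun, Y_flipFun, Z_flipFun]
  rw [← min_assoc, ← min_assoc, min_comm (X p)]

lemma F_rot (p : D) : F (rotFun p) = F p := by
  have h1 : V (rotFun p) = V p := by
    unfold V; simp only [X_rotFun, Y_rotFun, Z_rotFun]; ring
  apply ext'
  · simp only [X_F, T1, md, mx_rot, mn_rot]
  · simp only [Y_F, T2, md, mx_rot, mn_rot]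
  · simp only [W_F, Tm, T1, T2, T3, md, mx_rot, mn_rot, h1, W_rotFun]

lemma F_flip (p : D) : F (flipFun p) = F p := by
  have h1 : W (flipFun p) * V (flipFun p) = W p * V p := by
    unfold V; simp only [X_flipFun, Y_flipFun, Z_flipFun, W_flipFun]; ring
  apply ext'
  · simp only [X_F, T1, md, mx_flip, mn_flip]
  · simp only [Y_F, T2, md, mx_flip, mn_flip]
  · simp only [W_F, Tm, T1, T2, T3, md, mx_flip, mn_flip, h1]

lemma rot_mem_G {p : D} : rotFun p ∈ G ↔ p ∈ G := by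
  simp only [mem_G, X_rotFun, Y_rotFun, Z_rotFun, W_rotFun]
  constructor
  · rintro ⟨h1, h2, h3, h4⟩; exact ⟨h1, h4.symm ∘ Eq.symm ∘ Eq.symm, h2, h3.symm⟩
  · rintro ⟨h1, h2, h3, h4⟩; exact ⟨h1, h3, h4.symm, h2.symm⟩

lemma flip_mem_G {p : D} : flipFun p ∈ G ↔ p ∈ G := by
  simp only [mem_G, X_flipFun, Y_flipFun, Z_flipFun, W_flipFun, neg_ne_zero]
  constructor
  · rintro ⟨h1, h2, h3, h4⟩; exact ⟨h1, h2.symm, h4, h3⟩
  · rintro ⟨h1, h2, h3, h4⟩; exact ⟨h1, h2.symm, h4, h3⟩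

lemma GoodAt.rot {χ : D → ℂ} {x : D} (h : GoodAt χ (rotFun x)) (hx : W x ≠ 0) :
    GoodAt (fun y => χ (rotFun y)) x := by
  obtain ⟨Φ, L, h1, h2, h3⟩ := h
  have h4 : ∀ᶠ y in 𝓝 x, χ (rotFun y) = Φ (kap (rotFun y)) :=
    (D.rot.continuous.continuousAt (x := x)).eventually h3
  rcases lt_or_gt_of_ne hx with hx | hx
  · have h5 : ∀ y, W y < 0 → kap (rotFun y) = 1 + aff ⟨-1, 1⟩ ⟨-1, 0⟩ (kap y) := by
      intro y hy
      rw [kap_back hy, kap_back (by simpa using hy), aff_apply]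
      have := sum_eq y
      apply Complex.ext
      · simp; linarith
      · simp
    refine ⟨fun z => Φ (1 + aff ⟨-1, 1⟩ ⟨-1, 0⟩ z), L.comp (aff ⟨-1, 1⟩ ⟨-1, 0⟩), ?_, ?_, ?_⟩
    · rw [h5 x hx] at h1
      exact HasFDerivAt.comp (kap x) h1 ((aff ⟨-1, 1⟩ ⟨-1, 0⟩).hasFDerivAt.const_add _)
    · rw [J_comp, J_aff]; norm_num; exact h2
    · filter_upwards [h4, eventually_back hx] with y hy hy2
      rw [hy, h5 y hy2]
  · have h5 : ∀ y, 0 < W y → kap (rotFun y) = I + aff ⟨0, -1⟩ ⟨1, -1⟩ (kap y) := by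
      intro y hy
      rw [kap_front hy, kap_front (by simpa using hy), aff_apply]
      have := sum_eq y
      apply Complex.ext
      · simp
      · simp; linarith
    refine ⟨fun z => Φ (I + aff ⟨0, -1⟩ ⟨1, -1⟩ z), L.comp (aff ⟨0, -1⟩ ⟨1, -1⟩), ?_, ?_, ?_⟩
    · rw [h5 x hx] at h1
      exact HasFDerivAt.comp (kap x) h1 ((aff ⟨0, -1⟩ ⟨1, -1⟩).hasFDerivAt.const_add _)
    · rw [J_comp, J_aff]; norm_num; exact h2
    · filter_upwards [h4, eventually_front hx] with y hy hy2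
      rw [hy, h5 y hy2]

lemma kap_flip {y : D} (hy : W y ≠ 0) : kap (flipFun y) = kap y := by
  rcases lt_or_gt_of_ne hy with hy | hy
  · rw [kap_back hy, kap_front (by simpa using hy)]; rfl
  · rw [kap_front hy, kap_back (by simpa using hy)]; rfl

lemma GoodAt.flip {χ : D → ℂ} {x : D} (h : GoodAt χ (flipFun x)) (hx : W x ≠ 0) :
    GoodAt (fun y => χ (flipFun y)) x := by
  obtain ⟨Φ, L, h1, h2, h3⟩ := h
  rw [kap_flip hx] at h1
  refine ⟨Φ, L, h1, h2, ?_⟩
  have h4 : ∀ᶠ y in 𝓝 x, χ (flipFun y) = Φ (kap (flipFun y)) :=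
    (D.flip.continuous.continuousAt (x := x)).eventually h3
  filter_upwards [h4, continuous_W.continuousAt.eventually_ne hx] with y hy hy2
  rw [hy, kap_flip hy2]

lemma rot_trans_mem {χ : OpenPartialHomeomorph D ℂ} (h : χ ∈ Atlas) :
    rot.toOpenPartialHomeomorph.trans χ ∈ Atlas := by
  intro x hx hxG
  have hx1 : rotFun x ∈ χ.source := by
    rw [OpenPartialHomeomorph.trans_source] at hx; exact hx.2
  exact (h _ hx1 (rot_mem_G.2 hxG)).rot hxG.1

lemma flip_trans_mem {χ : OpenPartialHomeomorph D ℂ} (h : χ ∈ Atlas) :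
    flip.toOpenPartialHomeomorph.trans χ ∈ Atlas := by
  intro x hx hxG
  have hx1 : flipFun x ∈ χ.source := by
    rw [OpenPartialHomeomorph.trans_source] at hx; exact hx.2
  exact (h _ hx1 (flip_mem_G.2 hxG)).flip hxG.1

end D

end Pool.Agent.Helper93.Thurston
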