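import Pool.Agent.Helper93.Thurston.Psi3

/-! The barycentric subdivision map is a Thurston map. -/

namespace Pool.Agent.Helper93.Thurston

open Set Filter Topology Complex

/-! ### injectivity near points, in terms of local models -/

section General

variable {S : Type*} [TopologicalSpace S]

/-- with local degree at least two, the map is not injective near the point -/
lemma IsPowerNear.not_injOn {f : S → S} {p : S} {d : ℕ} {φ ψ : OpenPartialHomeomorph S ℂ}
    (h : IsPowerNear f p d φ ψ) (hd : 2 ≤ d) {V : Set S} (hV : V ∈ 𝓝 p) : ¬ InjOn f V := by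
  obtain ⟨hp, hp0, hfp, hfp0, hrel⟩ := h
  intro hinj
  have h0 : (0:ℂ) ∈ φ.target := by rw [← hp0]; exact φ.map_source hp
  have hsymm : φ.symm 0 = p := by rw [← hp0]; exact φ.left_inv hp
  have hct : Tendsto φ.symm (𝓝 0) (𝓝 p) := by
    have := φ.symm.continuousAt (x := 0) h0
    rwa [ContinuousAt, hsymm] at this
  have h1 : ∀ᶠ z in 𝓝 (0:ℂ), z ∈ φ.target ∧ φ.symm z ∈ V :=
    Filter.Eventually.and (φ.open_target.mem_nhds h0) (hct hV)
  obtain ⟨ε, hε, hball⟩ := Metric.eventually_nhds_iff.1 h1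
  set ω : ℂ := exp (2 * Real.pi * I / d) with hω
  have hdpos : 0 < d := by omega
  have hωd : ω ^ d = 1 := (Complex.isPrimitiveRoot_exp d hdpos.ne').pow_eq_one
  have hω1 : ω ≠ 1 := (Complex.isPrimitiveRoot_exp d hdpos.ne').ne_one (by omega)
  have hωn : ‖ω‖ = 1 := by
    have : ω = exp ((2 * Real.pi / d : ℝ) * I) := by rw [hω]; congr 1; push_cast; ring
    rw [this, norm_exp_ofReal_mul_I]
  set z : ℂ := ((ε / 2 : ℝ) : ℂ) with hz
  have hzn : ‖z‖ = ε / 2 := by
    rw [hz, norm_real, Real.norm_eq_abs, abs_of_pos (by positivity)]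
  have hz0 : z ≠ 0 := by
    rw [← norm_pos_iff, hzn]; positivity
  obtain ⟨a1, a2⟩ := hball (y := z) (by rw [dist_zero_right, hzn]; linarith)
  obtain ⟨b1, b2⟩ := hball (y := ω * z) (by rw [dist_zero_right, norm_mul, hωn, hzn]; linarith)
  have e1 := hrel _ (φ.map_target a1)
  have e2 := hrel _ (φ.map_target b1)
  rw [φ.right_inv a1] at e1
  rw [φ.right_inv b1, mul_pow, hωd, one_mul] at e2
  have e3 : f (φ.symm z) = f (φ.symm (ω * z)) := ψ.injOn e1.1 e2.1 (e1.2.trans e2.2.symm)
  have e4 := hinj a2 b2 e3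
  have e5 : z = ω * z := φ.symm.injOn a1 b1 e4
  have : (ω - 1) * z = 0 := by linear_combination -e5
  rcases mul_eq_zero.1 this with h | h
  · exact hω1 (by linear_combination h)
  · exact hz0 h

/-- Away from the zero of the chart the power map is locally injective. -/
lemma injOn_near {f : S → S} {d : ℕ} (hd : 1 ≤ d) {φ ψ : OpenPartialHomeomorph S ℂ}
    (hrel : ∀ x ∈ φ.source, f x ∈ ψ.source ∧ ψ (f x) = φ x ^ d) {p : S} (hp : p ∈ φ.source)
    (hp0 : φ p ≠ 0) : ∃ V ∈ 𝓝 p, InjOn f V := by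
  have hs : HasStrictDerivAt (fun z : ℂ => z ^ d) (d * φ p ^ (d - 1)) (φ p) :=
    hasStrictDerivAt_pow d (φ p)
  have hne : (d : ℂ) * φ p ^ (d - 1) ≠ 0 :=
    mul_ne_zero (by exact_mod_cast (by omega : d ≠ 0)) (pow_ne_zero _ hp0)
  have hs' := hs.hasStrictFDerivAt_equiv hne
  set e := hs'.toOpenPartialHomeomorph with he
  have hmem : φ p ∈ e.source := hs'.mem_toOpenPartialHomeomorph_source
  refine ⟨φ.source ∩ φ ⁻¹' e.source, ?_, ?_⟩
  · exact (φ.isOpen_inter_preimage e.open_source).mem_nhds ⟨hp, hmem⟩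
  · rintro x ⟨hx1, hx2⟩ y ⟨hy1, hy2⟩ hxy
    have h1 := (hrel x hx1).2
    have h2 := (hrel y hy1).2
    rw [hxy, h2] at h1
    have h3 : φ y = φ x := e.injOn hy2 hx2 h1
    exact (φ.injOn hy1 hx1 h3).symm

end General

namespace D

/-! ### vertices -/

def vt2 : D := mk' 0 1 0 (by norm_num)
def vt3 : D := mk' 0 0 0 (by norm_num)

lemma eq_v1 {p : D} (h2 : Y p = 0) (h3 : Z p = 0) : p = v1 := by
  have hs := sum_eq p
  have hw := abs_W p
  rw [h2, h3, min_self, min_eq_right (X_nonneg p)] at hw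
  exact ext' (by change X p = 1; linarith) h2 (abs_eq_zero.1 hw)

lemma eq_vt2 {p : D} (h1 : X p = 0) (h3 : Z p = 0) : p = vt2 := by
  have hs := sum_eq p
  have hw := abs_W p
  rw [h1, h3, min_eq_right (Y_nonneg p), min_self] at hw
  exact ext' h1 (by change Y p = 1; linarith) (abs_eq_zero.1 hw)

lemma eq_vt3 {p : D} (h1 : X p = 0) (h2 : Y p = 0) : p = vt3 := by
  have hw := abs_W p
  rw [h1, h2, min_eq_left (Z_nonneg p), min_self] at hw
  exact ext' h1 h2 (abs_eq_zero.1 hw)

lemma fpsi1_zero {p : D} (hX : 0 < X p) (h : fpsi1 p = 0) : p = v1 := by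
  have h1 := abs_im_fpsi1 hX
  have h2 : Y p ^ 2 - Z p ^ 2 = 0 := congrArg Complex.re h
  rw [h, zero_im, abs_zero] at h1
  have p1 := Y_nonneg p
  have p2 := Z_nonneg p
  have h3 : Y p * Z p = 0 := by linarith
  rcases mul_eq_zero.1 h3 with h4 | h4
  · rw [h4] at h2
    exact eq_v1 h4 (by nlinarith)
  · rw [h4] at h2
    exact eq_v1 (by nlinarith) h4

/-- the zeros of the charts `ψ` are the vertices -/
def IsVert (p : D) : Prop := p = v1 ∨ p = vt2 ∨ p = vt3

lemma psi1_zero {p : D} (hp : p ∈ psi1.source) (h : psi1 p = 0) : IsVert p := by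
  rw [psi1_source] at hp
  rw [psi1_apply] at h
  exact Or.inl (fpsi1_zero hp h)

lemma psi2_zero {p : D} (hp : p ∈ psi2.source) (h : psi2 p = 0) : IsVert p := by
  rw [psi2_source] at hp
  rw [psi2_apply] at h
  have h1 : rotFun p = v1 := fpsi1_zero (by simpa using hp) h
  have h2 : Z p = 0 := by
    have := congrArg Y h1
    simpa [v1] using this
  have h3 : X p = 0 := by
    have := congrArg Z h1
    simpa [v1] using this
  exact Or.inr (Or.inl (eq_vt2 h3 h2))

lemma psi3_zero {p : D} (hp : p ∈ psi3.source) (h : psi3 p = 0) : IsVert p := by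
  rw [psi3_source] at hp
  rw [psi3_apply] at h
  have h1 := abs_im_fpsi3 hp
  have h2 : (X p + Y p / 4) * (X p - Y p / 2) * (X p + Y p) = 0 := congrArg Complex.re h
  rw [h, zero_im, abs_zero] at h1
  have p1 := X_nonneg p
  have p2 := Y_nonneg p
  have h3 := s3_pos
  have h4 : X p * Y p * (X p + Y p / 2) = 0 := by
    rcases mul_eq_zero.1 h1.symm with h5 | h5
    · exfalso; linarith
    · exact h5
  rcases mul_eq_zero.1 h4 with h5 | h5
  · rcases mul_eq_zero.1 h5 with h6 | h6
    · rw [h6] at h2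
      have h7 : Y p ^ 3 = 0 := by linear_combination (-8) * h2
      exact Or.inr (Or.inr (eq_vt3 h6 (by simpa using h7)))
    · rw [h6] at h2
      have h7 : X p ^ 3 = 0 := by linear_combination h2
      exact Or.inr (Or.inr (eq_vt3 (by simpa using h7) h6))
  · exact Or.inr (Or.inr (eq_vt3 (by linarith) (by linarith)))

/-- A pair of charts in which `F` is `z ↦ z ^ d`. -/
structure Rel (φ ψ : OpenPartialHomeomorph D ℂ) (d : ℕ) : Prop where
  left : φ ∈ Atlas
  right : ψ ∈ Atlas
  pos : 1 ≤ d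
  zero : ∀ q ∈ ψ.source, ψ q = 0 → IsVert q
  rel : ∀ x ∈ φ.source, F x ∈ ψ.source ∧ ψ (F x) = φ x ^ d

lemma Rel.rot {φ ψ d} (h : Rel φ ψ d) : Rel (D.rot.toOpenPartialHomeomorph.trans φ) ψ d := by
  refine ⟨rot_trans_mem h.left, h.right, h.pos, h.zero, fun x hx => ?_⟩
  have hx1 : rotFun x ∈ φ.source := by
    rw [OpenPartialHomeomorph.trans_source] at hx; exact hx.2
  have := h.rel _ hx1
  rw [F_rot] at this
  exact this

lemma Rel.flip {φ ψ d} (h : Rel φ ψ d) : Rel (D.flip.toOpenPartialHomeomorph.trans φ) ψ d := by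
  refine ⟨flip_trans_mem h.left, h.right, h.pos, h.zero, fun x hx => ?_⟩
  have hx1 : flipFun x ∈ φ.source := by
    rw [OpenPartialHomeomorph.trans_source] at hx; exact hx.2
  have := h.rel _ hx1
  rw [F_flip] at this
  exact this

lemma relV : Rel phiV psi1 2 := by
  refine ⟨phiV_mem_Atlas, psi1_mem_Atlas, by norm_num, fun q => psi1_zero,
    fun x hx => ⟨?_, ?_⟩⟩
  · rw [psi1_source]
    change 0 < X (F x)
    rw [X_F]
    obtain ⟨h1, h2⟩ := mem_phiV_source.1 hx
    have hs := sum_eq x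
    have hmx : mx x = X x := by unfold mx; rw [max_eq_left (max_le h1.le h2.le)]
    have hmn : mn x = min (Y x) (Z x) := by
      unfold mn; rw [min_eq_right (by rw [min_le_iff]; left; exact h1.le)]
    unfold T1 md; rw [hmx, hmn]
    rcases le_total (Y x) (Z x) with h | h
    · rw [min_eq_left h]; linarith
    · rw [min_eq_right h]; linarith
  · rw [psi1_apply, fpsi1_F hx]

lemma relM : Rel phiM psi2 2 := by
  refine ⟨phiM_mem_Atlas, psi2_mem_Atlas, by norm_num, fun q => psi2_zero,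
    fun x hx => ⟨?_, ?_⟩⟩
  · rw [psi2_source]
    change 0 < Y (F x)
    rw [Y_F]
    obtain ⟨h1, h2⟩ := mem_phiM_source.1 hx
    have hs := sum_eq x
    have hmn : mn x = Z x := by unfold mn; rw [min_eq_right h2.le, min_eq_right h1.le]
    have hmx : mx x = max (X x) (Y x) := by unfold mx; rw [max_eq_left h2.le]
    unfold T2 md; rw [hmx, hmn]
    rcases le_total (X x) (Y x) with h | h
    · rw [max_eq_right h]; linarith
    · rw [max_eq_left h]; linarith
  · exact psi2_F hx

lemma relF : Rel phiF psi3 3 := by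
  refine ⟨phiF_mem_Atlas, psi3_mem_Atlas, by norm_num, fun q => psi3_zero,
    fun x hx => ⟨?_, ?_⟩⟩
  · rw [psi3_source]
    change 0 < Z (F x)
    have hW : 0 < W x := hx
    rw [Z_F, T3, ← abs_W_eq_mn, abs_of_pos hW]; linarith
  · rw [psi3_apply, fpsi3_F hx]

/-- Every point is in the source of a chart where `F` is a power. -/
lemma exists_rel (p : D) : ∃ φ ψ d, Rel φ ψ d ∧ p ∈ φ.source := by
  rcases lt_trichotomy (W p) 0 with hW | hW | hW
  · refine ⟨_, _, _, relF.flip, ?_⟩
    rw [OpenPartialHomeomorph.trans_source]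
    refine ⟨mem_univ _, ?_⟩
    change 0 < W (flipFun p)
    rw [W_flipFun]; linarith
  · have hmin := abs_W p
    rw [hW, abs_zero] at hmin
    have hs := sum_eq p
    have h1 := X_nonneg p
    have h2 := Y_nonneg p
    have h3 := Z_nonneg p
    have memV : ∀ q : D, Y q < X q → Z q < X q → q ∈ phiV.source := fun q a b => ⟨a, b⟩
    have memM : ∀ q : D, Z q < X q → Z q < Y q → q ∈ phiM.source := fun q a b => ⟨a, b⟩
    by_cases a1 : Y p < X p ∧ Z p < X p
    · exact ⟨_, _, _, relV, memV p a1.1 a1.2⟩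
    by_cases a2 : Z p < Y p ∧ X p < Y p
    · refine ⟨_, _, _, relV.rot, ?_⟩
      rw [OpenPartialHomeomorph.trans_source]
      exact ⟨mem_univ _, memV (rotFun p) (by simpa using a2.1) (by simpa using a2.2)⟩
    by_cases a3 : X p < Z p ∧ Y p < Z p
    · refine ⟨_, _, _, relV.rot.rot, ?_⟩
      rw [OpenPartialHomeomorph.trans_source, OpenPartialHomeomorph.trans_source]
      exact ⟨mem_univ _, mem_univ _, memV (rotFun (rotFun p)) (by simpa using a3.1)
        (by simpa using a3.2)⟩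
    by_cases a4 : Z p < X p ∧ Z p < Y p
    · exact ⟨_, _, _, relM, memM p a4.1 a4.2⟩
    by_cases a5 : X p < Y p ∧ X p < Z p
    · refine ⟨_, _, _, relM.rot, ?_⟩
      rw [OpenPartialHomeomorph.trans_source]
      exact ⟨mem_univ _, memM (rotFun p) (by simpa using a5.1) (by simpa using a5.2)⟩
    by_cases a6 : Y p < Z p ∧ Y p < X p
    · refine ⟨_, _, _, relM.rot.rot, ?_⟩
      rw [OpenPartialHomeomorph.trans_source, OpenPartialHomeomorph.trans_source]
      exact ⟨mem_univ _, mem_univ _, memM (rotFun (rotFun p)) (by simpa using a6.1)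
        (by simpa using a6.2)⟩
    exfalso
    rw [not_and_or, not_lt, not_lt] at a1 a2 a3 a4 a5 a6
    rcases order_cases p with h | h | h | h | h | h <;> obtain ⟨b1, b2, _, _, e3⟩ := h <;>
      rw [← abs_W_eq_mn, hW, abs_zero] at e3 <;>
      rcases a1 with a1 | a1 <;> rcases a2 with a2 | a2 <;> rcases a3 with a3 | a3 <;>
      rcases a4 with a4 | a4 <;> rcases a5 with a5 | a5 <;> rcases a6 with a6 | a6 <;> linarith
  · exact ⟨_, _, _, relF, hW⟩

lemma trans_mem_Atlas {χ : OpenPartialHomeomorph D ℂ} (h : χ ∈ Atlas)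
    (e : OpenPartialHomeomorph ℂ ℂ)
    (he : ∀ z ∈ e.source, ∃ c ≠ 0, HasDerivAt e c z) : χ.trans e ∈ Atlas := by
  intro x hx hG
  rw [OpenPartialHomeomorph.trans_source] at hx
  obtain ⟨c, hc, hd⟩ := he _ hx.2
  exact (h x hx.1 hG).comp_holo hc hd

lemma exists_powerNear (p : D) : ∃ d : ℕ, 1 ≤ d ∧ ∃ φ ∈ Atlas, ∃ ψ ∈ Atlas,
    IsPowerNear F p d φ ψ := by
  obtain ⟨φ, ψ, d, hR, hp⟩ := exists_rel p
  by_cases hp0 : φ p = 0
  · refine ⟨d, hR.pos, φ, hR.left, ψ, hR.right, hp, hp0, (hR.rel p hp).1, ?_, hR.rel⟩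
    rw [(hR.rel p hp).2, hp0, zero_pow (by have := hR.pos; omega)]
  · -- local inverse
    have hd1 := hR.pos
    have hs : HasStrictDerivAt (fun z : ℂ => z ^ d - φ p ^ d) (d * φ p ^ (d - 1)) (φ p) :=
      (hasStrictDerivAt_pow d (φ p)).sub_const _
    have hne : (d : ℂ) * φ p ^ (d - 1) ≠ 0 :=
      mul_ne_zero (by exact_mod_cast (by omega : d ≠ 0)) (pow_ne_zero _ hp0)
    have hs' := hs.hasStrictFDerivAt_equiv hne
    set e := hs'.toOpenPartialHomeomorph with he
    have hmem : φ p ∈ e.source := hs'.mem_toOpenPartialHomeomorph_source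
    have hopen : IsOpen ({0}ᶜ : Set ℂ) := isOpen_compl_singleton
    set e' := e.restrOpen _ hopen with he'
    have hsrc : e'.source = e.source ∩ {0}ᶜ := rfl
    have hcoe : ∀ z, e' z = z ^ d - φ p ^ d := fun z => rfl
    have hcoe' : (e' : ℂ → ℂ) = fun z => z ^ d - φ p ^ d := funext hcoe
    have hmem' : φ p ∈ e'.source := by rw [hsrc]; exact ⟨hmem, hp0⟩
    set t : OpenPartialHomeomorph ℂ ℂ :=
      (Homeomorph.subRight (φ p ^ d)).toOpenPartialHomeomorph with ht
    have htc : ∀ z, t z = z - φ p ^ d := fun z => rfl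
    have htc' : (t : ℂ → ℂ) = fun z => z - φ p ^ d := funext htc
    refine ⟨1, le_rfl, φ.trans e', trans_mem_Atlas hR.left _ ?_, ψ.trans t,
      trans_mem_Atlas hR.right _ ?_, ?_, ?_, ?_, ?_, ?_⟩
    · intro z hz
      rw [hsrc] at hz
      refine ⟨d * z ^ (d - 1), mul_ne_zero (by exact_mod_cast (by omega : d ≠ 0))
        (pow_ne_zero _ hz.2), ?_⟩
      rw [hcoe']
      exact (hasDerivAt_pow d z).sub_const _
    · intro z _
      refine ⟨1, one_ne_zero, ?_⟩
      rw [htc']
      exact (hasDerivAt_id z).sub_const _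
    · rw [OpenPartialHomeomorph.trans_source]; exact ⟨hp, hmem'⟩
    · rw [OpenPartialHomeomorph.coe_trans, Function.comp_apply, hcoe, sub_self]
    · rw [OpenPartialHomeomorph.trans_source]; exact ⟨(hR.rel p hp).1, mem_univ _⟩
    · rw [OpenPartialHomeomorph.coe_trans, Function.comp_apply, htc, (hR.rel p hp).2, sub_self]
    · intro x hx
      rw [OpenPartialHomeomorph.trans_source] at hx
      refine ⟨?_, ?_⟩
      · rw [OpenPartialHomeomorph.trans_source]; exact ⟨(hR.rel x hx.1).1, mem_univ _⟩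
      · rw [OpenPartialHomeomorph.coe_trans, Function.comp_apply, htc, (hR.rel x hx.1).2,
          OpenPartialHomeomorph.coe_trans, Function.comp_apply, hcoe, pow_one]

lemma isOrientedAtlas : IsOrientedAtlas Atlas := by
  refine ⟨fun p => ?_, fun φ hφ ψ hψ => transition_OP hφ hψ⟩
  obtain ⟨φ, ψ, d, hR, hp⟩ := exists_rel p
  exact ⟨φ, hR.left, hp⟩

lemma isBranchedCovering_F : IsBranchedCovering F :=
  ⟨continuous_F, Atlas, isOrientedAtlas, exists_powerNear⟩

/-! ### critical points -/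

lemma F_vone : F v1 = v1 := by
  have e1 : mx v1 = 1 := by unfold mx v1; simp
  have e3 : mn v1 = 0 := by unfold mn v1; simp
  have e2 : md v1 = 0 := by unfold md; rw [e1, e3]; ring
  apply eq_v1
  · rw [Y_F, T2, e2, e3]; ring
  · rw [Z_F, T3, e3]; ring

lemma F_vt2 : F vt2 = v1 := by
  have e1 : mx vt2 = 1 := by unfold mx vt2; simp
  have e3 : mn vt2 = 0 := by unfold mn vt2; simp
  have e2 : md vt2 = 0 := by unfold md; rw [e1, e3]; ring
  apply eq_v1
  · rw [Y_F, T2, e2, e3]; ring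
  · rw [Z_F, T3, e3]; ring

lemma F_vt3 : F vt3 = v1 := by
  have e1 : mx vt3 = 1 := by unfold mx vt3; simp
  have e3 : mn vt3 = 0 := by unfold mn vt3; simp
  have e2 : md vt3 = 0 := by unfold md; rw [e1, e3]; ring
  apply eq_v1
  · rw [Y_F, T2, e2, e3]; ring
  · rw [Z_F, T3, e3]; ring

lemma IsVert.F {p : D} (h : IsVert p) : F p = v1 := by
  rcases h with h | h | h
  · rw [h, F_vone]
  · rw [h, F_vt2]
  · rw [h, F_vt3]

lemma isVert_F_of_crit {p : D} (h : p ∈ crit F) : IsVert (F p) := by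
  obtain ⟨d, hd, φ', ψ', hpow⟩ := h
  obtain ⟨φ, ψ, d0, hR, hp⟩ := exists_rel p
  have hz : φ p = 0 := by
    by_contra hne
    obtain ⟨V, hV, hinj⟩ := injOn_near hR.pos hR.rel hp hne
    exact hpow.not_injOn hd hV hinj
  refine hR.zero _ (hR.rel p hp).1 ?_
  rw [(hR.rel p hp).2, hz, zero_pow (by have := hR.pos; omega)]

lemma post_subset_vert : post F ⊆ {v1, vt2, vt3} := by
  intro q hq
  simp only [post, mem_iUnion] at hq
  obtain ⟨n, hn, p, hp, rfl⟩ := hq
  have key : ∀ m : ℕ, IsVert (F^[m + 1] p) := by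
    intro m
    induction m with
    | zero => exact isVert_F_of_crit hp
    | succ m ih =>
      rw [Function.iterate_succ_apply']
      left
      exact ih.F
  obtain ⟨m, rfl⟩ : ∃ m, n = m + 1 := ⟨n - 1, by omega⟩
  rcases key m with h | h | h
  · rw [h]; simp
  · rw [h]; simp
  · rw [h]; simp

lemma post_finite_F : (post F).Finite := (Set.toFinite _).subset post_subset_vert

lemma post_subset_eq : post F ⊆ {p | W p = 0} := by
  intro q hq
  have := post_subset_vert hq
  rcases this with h | h | h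
  · rw [h]; rfl
  · rw [h]; rfl
  · rw [h]; rfl

lemma two_le_topDegree_F : 2 ≤ topDegree F := by
  have h1 : (F ⁻¹' {v1}).encard ≤ topDegree F := le_iSup (fun q => (F ⁻¹' {q}).encard) v1
  refine le_trans ?_ h1
  have hne : v1 ≠ vt2 := by
    intro h
    have := congrArg X h
    change (1:ℝ) = 0 at this
    exact one_ne_zero this
  have h2 : ({v1, vt2} : Set D) ⊆ F ⁻¹' {v1} := by
    rintro p (h | h)
    · rw [h]; exact F_vone
    · rw [h]; exact F_vt2
  calc (2 : ℕ∞) = ({v1, vt2} : Set D).encard := (encard_pair hne).symm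
    _ ≤ _ := encard_le_encard h2

/-! ### the fixed critical point -/

lemma powerNear_v1 : IsPowerNear F v1 2 phiV psi1 := by
  have hp : v1 ∈ phiV.source := by
    rw [mem_phiV_source]
    change (0:ℝ) < 1 ∧ (1:ℝ) - 1 - 0 < 1
    constructor <;> norm_num
  have h0 : phiV v1 = 0 := by
    rw [phiV_apply]
    apply Complex.ext
    · change 2 * ((0:ℝ) - (1 - 1 - 0)) = 0; norm_num
    · change 3 * (0:ℝ) = 0; norm_num
  refine ⟨hp, h0, (relV.rel _ hp).1, ?_, relV.rel⟩
  rw [(relV.rel _ hp).2, h0]; norm_num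

lemma not_injOn_vone : ∀ V ∈ 𝓝 v1, ¬ InjOn F V := fun _ hV => powerNear_v1.not_injOn le_rfl hV

lemma exists_small_vone : ∀ V ∈ 𝓝 v1, ∃ U ⊆ V, IsOpen U ∧ U.Nonempty ∧ U ⊆ F '' U := by
  intro V hV
  obtain ⟨ε, hε, hball⟩ := Metric.mem_nhds_iff.1 hV
  refine ⟨{p | 1 - X p < ε}, ?_, isOpen_lt (by fun_prop) continuous_const, ⟨v1, ?_⟩, ?_⟩
  · intro p hp
    apply hball
    rw [Metric.mem_ball]
    have hp' : 1 - X p < ε := hp
    have hs := sum_eq p
    have h1 := X_nonneg p
    have h2 := Y_nonneg p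
    have h3 := Z_nonneg p
    have hw : |W p| ≤ Y p := by
      rw [abs_W]; exact (min_le_right _ _).trans (min_le_left _ _)
    have hd : dist p v1 = max (dist (X p) 1) (max (dist (Y p) 0) (dist (W p) 0)) := rfl
    rw [hd, Real.dist_eq, Real.dist_eq, Real.dist_eq, sub_zero, sub_zero]
    refine max_lt ?_ (max_lt ?_ ?_)
    · rw [abs_sub_comm, abs_of_nonneg (by linarith)]; exact hp'
    · rw [abs_of_nonneg h2]; linarith
    · linarith
  · change 1 - (1:ℝ) < ε; linarith
  · intro y hy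
    have hy' : 1 - X y < ε := hy
    refine ⟨pre y, ?_, F_pre y⟩
    change 1 - X (pre y) < ε
    rw [X_pre]
    have hs := sum_eq y
    have h2 := Y_nonneg y
    have h3 := Z_nonneg y
    linarith

end D

end Pool.Agent.Helper93.Thurston
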