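import Pool.Agent.Helper93.Thurston.Atlas

/-! The charts around the critical points. -/

namespace Pool.Agent.Helper93.Thurston

open Set Filter Topology Complex

namespace D

lemma validV {z : ℂ} (hz : |z.re| + |z.im| < 1) :
    |z.im / 3| = min (1 - 2 * |z.im / 3| - |z.re / 2|)
        (min (|z.im / 3| + max (z.re / 2) 0)
          (1 - (1 - 2 * |z.im / 3| - |z.re / 2|) - (|z.im / 3| + max (z.re / 2) 0))) := by
  have e1 : |z.re / 2| = |z.re| / 2 := by rw [abs_div]; norm_num
  have e2 : |z.im / 3| = |z.im| / 3 := by rw [abs_div]; norm_num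
  have hb := abs_nonneg z.im
  rw [e1, e2]
  rcases le_total z.re 0 with h | h
  · rw [max_eq_right (by linarith : z.re / 2 ≤ 0), abs_of_nonpos h] at *
    rw [min_eq_left (a := |z.im| / 3 + 0) (by linarith), min_eq_right (by linarith)]
    ring
  · rw [max_eq_left (by linarith : 0 ≤ z.re / 2), abs_of_nonneg h] at *
    rw [min_eq_right (a := |z.im| / 3 + z.re / 2) (by linarith), min_eq_right (by linarith)]
    ring

lemma abs_W_V {p : D} (h1 : Y p < X p) : |W p| = min (Y p) (Z p) := by
  rw [abs_W, min_eq_right (by rw [min_le_iff]; left; exact h1.le)]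

lemma phiV_mem {p : D} (h1 : Y p < X p) (h2 : Z p < X p) : |2 * (Y p - Z p)| + |3 * W p| < 1 := by
  have hs := sum_eq p
  rw [abs_mul, abs_mul, abs_W_V h1]
  rcases le_total (Y p) (Z p) with h | h
  · rw [min_eq_left h, abs_of_nonpos (by linarith : Y p - Z p ≤ 0)]
    norm_num; linarith
  · rw [min_eq_right h, abs_of_nonneg (by linarith : 0 ≤ Y p - Z p)]
    norm_num; linarith

/-- chart at the vertex `v1` -/
noncomputable def phiV : OpenPartialHomeomorph D ℂ where
  toFun p := ⟨2 * (Y p - Z p), 3 * W p⟩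
  invFun z := mkt (1 - 2 * |z.im / 3| - |z.re / 2|) (|z.im / 3| + max (z.re / 2) 0) (z.im / 3)
  source := {p | Y p < X p ∧ Z p < X p}
  target := {z | |z.re| + |z.im| < 1}
  map_source' := by
    rintro p ⟨h1, h2⟩
    exact phiV_mem h1 h2
  map_target' := by
    intro z hz
    have hv := validV hz
    change |z.re| + |z.im| < 1 at hz
    have e1 : |z.re / 2| = |z.re| / 2 := by rw [abs_div]; norm_num
    have e2 : |z.im / 3| = |z.im| / 3 := by rw [abs_div]; norm_num
    have hb := abs_nonneg z.im
    rw [Set.mem_ofPred_eq, X_mkt hv, Y_mkt hv, Z_mkt hv, e1, e2]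
    rcases le_total z.re 0 with h | h
    · rw [max_eq_right (by linarith : z.re / 2 ≤ 0), abs_of_nonpos h] at *
      constructor <;> linarith
    · rw [max_eq_left (by linarith : 0 ≤ z.re / 2), abs_of_nonneg h] at *
      constructor <;> linarith
  left_inv' := by
    rintro p ⟨h1, h2⟩
    have hv := validV (z := ⟨2 * (Y p - Z p), 3 * W p⟩) (phiV_mem h1 h2)
    dsimp only at hv ⊢
    have hw := abs_W_V h1
    have hs := sum_eq p
    have e1 : 3 * W p / 3 = W p := by ring
    have e2 : 2 * (Y p - Z p) / 2 = Y p - Z p := by ring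
    apply ext'
    · rw [X_mkt hv, e1, e2, hw]
      rcases le_total (Y p) (Z p) with h | h
      · rw [min_eq_left h, abs_of_nonpos (by linarith : Y p - Z p ≤ 0)]; linarith
      · rw [min_eq_right h, abs_of_nonneg (by linarith : 0 ≤ Y p - Z p)]; linarith
    · rw [Y_mkt hv, e1, e2, hw]
      rcases le_total (Y p) (Z p) with h | h
      · rw [min_eq_left h, max_eq_right (by linarith : Y p - Z p ≤ 0)]; linarith
      · rw [min_eq_right h, max_eq_left (by linarith : 0 ≤ Y p - Z p)]; linarith
    · rw [W_mkt hv, e1]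
  right_inv' := by
    intro z hz
    have hv := validV hz
    rw [Y_mkt hv, Z_mkt hv, W_mkt hv]
    apply Complex.ext
    · dsimp only
      rcases le_total z.re 0 with h | h
      · rw [max_eq_right (by linarith : z.re / 2 ≤ 0), abs_of_nonpos (by linarith : z.re / 2 ≤ 0)]
        ring
      · rw [max_eq_left (by linarith : 0 ≤ z.re / 2), abs_of_nonneg (by linarith : 0 ≤ z.re / 2)]
        ring
    · dsimp only; ring
  open_source := by
    exact (isOpen_lt continuous_Y continuous_X).inter (isOpen_lt continuous_Z continuous_X)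
  open_target := by
    exact isOpen_lt (by fun_prop) continuous_const
  continuousOn_toFun := by
    exact (continuous_mkC (by fun_prop) (by fun_prop)).continuousOn
  continuousOn_invFun := by
    refine continuousOn_mkt ?_ ?_ ?_ fun z hz => validV hz
    · exact Continuous.continuousOn (by fun_prop)
    · exact Continuous.continuousOn (by fun_prop)
    · exact Continuous.continuousOn (by fun_prop)

lemma phiV_apply (p : D) : phiV p = ⟨2 * (Y p - Z p), 3 * W p⟩ := rfl
lemma mem_phiV_source {p : D} : p ∈ phiV.source ↔ Y p < X p ∧ Z p < X p := Iff.rfl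

lemma validM {z : ℂ} (hz : |z.re| + |z.im| < 1) :
    |z.re / 3| = min ((1 - |z.re / 3| + z.im) / 2)
        (min ((1 - |z.re / 3| - z.im) / 2)
          (1 - (1 - |z.re / 3| + z.im) / 2 - (1 - |z.re / 3| - z.im) / 2)) := by
  have e2 : |z.re / 3| = |z.re| / 3 := by rw [abs_div]; norm_num
  have hb := abs_nonneg z.re
  have h1 := le_abs_self z.im
  have h2 := neg_abs_le z.im
  rw [e2]
  rw [min_eq_right (a := (1 - |z.re| / 3 - z.im) / 2) (by linarith), min_eq_right (by linarith)]
  ring

lemma abs_W_M {p : D} (h1 : Z p < X p) (h2 : Z p < Y p) : |W p| = Z p := by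
  rw [abs_W, min_eq_right h2.le, min_eq_right h1.le]

lemma phiM_mem {p : D} (h1 : Z p < X p) (h2 : Z p < Y p) : |3 * W p| + |X p - Y p| < 1 := by
  have hs := sum_eq p
  rw [abs_mul, abs_W_M h1 h2]
  rcases le_total (X p) (Y p) with h | h
  · rw [abs_of_nonpos (by linarith : X p - Y p ≤ 0)]
    norm_num; linarith
  · rw [abs_of_nonneg (by linarith : 0 ≤ X p - Y p)]
    norm_num; linarith

/-- chart at the midpoint of the edge `v1 v2` -/
noncomputable def phiM : OpenPartialHomeomorph D ℂ where
  toFun p := ⟨3 * W p, X p - Y p⟩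
  invFun z := mkt ((1 - |z.re / 3| + z.im) / 2) ((1 - |z.re / 3| - z.im) / 2) (z.re / 3)
  source := {p | Z p < X p ∧ Z p < Y p}
  target := {z | |z.re| + |z.im| < 1}
  map_source' := by
    rintro p ⟨h1, h2⟩
    exact phiM_mem h1 h2
  map_target' := by
    intro z hz
    have hv := validM hz
    change |z.re| + |z.im| < 1 at hz
    have e2 : |z.re / 3| = |z.re| / 3 := by rw [abs_div]; norm_num
    have hb := abs_nonneg z.re
    have h1 := le_abs_self z.im
    have h2 := neg_abs_le z.im
    rw [Set.mem_ofPred_eq, X_mkt hv, Y_mkt hv, Z_mkt hv, e2]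
    constructor <;> linarith
  left_inv' := by
    rintro p ⟨h1, h2⟩
    have hv := validM (z := ⟨3 * W p, X p - Y p⟩) (phiM_mem h1 h2)
    dsimp only at hv ⊢
    have hw := abs_W_M h1 h2
    have hs := sum_eq p
    have e1 : 3 * W p / 3 = W p := by ring
    apply ext'
    · rw [X_mkt hv, e1, hw]; linarith
    · rw [Y_mkt hv, e1, hw]; linarith
    · rw [W_mkt hv, e1]
  right_inv' := by
    intro z hz
    have hv := validM hz
    rw [X_mkt hv, Y_mkt hv, W_mkt hv]
    apply Complex.ext
    · dsimp only; ring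
    · dsimp only; ring
  open_source := by
    exact (isOpen_lt continuous_Z continuous_X).inter (isOpen_lt continuous_Z continuous_Y)
  open_target := by
    exact isOpen_lt (by fun_prop) continuous_const
  continuousOn_toFun := by
    exact (continuous_mkC (by fun_prop) (by fun_prop)).continuousOn
  continuousOn_invFun := by
    refine continuousOn_mkt ?_ ?_ ?_ fun z hz => validM hz
    · exact Continuous.continuousOn (by fun_prop)
    · exact Continuous.continuousOn (by fun_prop)
    · exact Continuous.continuousOn (by fun_prop)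

lemma phiM_apply (p : D) : phiM p = ⟨3 * W p, X p - Y p⟩ := rfl
lemma mem_phiM_source {p : D} : p ∈ phiM.source ↔ Z p < X p ∧ Z p < Y p := Iff.rfl

/-- the square root of `3` -/
noncomputable def s3 : ℝ := Real.sqrt 3
lemma s3_pos : 0 < s3 := Real.sqrt_pos.2 (by norm_num)
lemma s3_mul : s3 * s3 = 3 := Real.mul_self_sqrt (by norm_num)

/-- the height over the face -/
noncomputable def hF (z : ℂ) : ℝ :=
  min ((2 * z.re + 1) / 3) (min ((1 - z.re + s3 * z.im) / 3)
    (1 - (2 * z.re + 1) / 3 - (1 - z.re + s3 * z.im) / 3))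

lemma continuous_hF : Continuous hF := by unfold hF; fun_prop

lemma validF {z : ℂ} (hz : 0 < hF z) :
    |hF z| = min ((2 * z.re + 1) / 3) (min ((1 - z.re + s3 * z.im) / 3)
    (1 - (2 * z.re + 1) / 3 - (1 - z.re + s3 * z.im) / 3)) := by
  rw [abs_of_pos hz]; rfl

lemma hF_eq (p : D) : hF ⟨(3 * X p - 1) / 2, s3 / 2 * (Y p - Z p)⟩ = |W p| := by
  rw [abs_W]
  unfold hF
  dsimp only
  have hs := sum_eq p
  have h3 := s3_mul
  have e0 : s3 * (s3 / 2 * (Y p - Z p)) = 3 / 2 * (Y p - Z p) := by
    linear_combination (1 / 2 * (Y p - Z p)) * h3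
  have e1 : (2 * ((3 * X p - 1) / 2) + 1) / 3 = X p := by ring
  have e2 : (1 - (3 * X p - 1) / 2 + s3 * (s3 / 2 * (Y p - Z p))) / 3 = Y p := by
    rw [e0]; linear_combination (-1 / 2) * hs
  rw [e1, e2, ← Z_eq]

/-- chart at the barycentre of the upper face -/
noncomputable def phiF : OpenPartialHomeomorph D ℂ where
  toFun p := ⟨(3 * X p - 1) / 2, s3 / 2 * (Y p - Z p)⟩
  invFun z := mkt ((2 * z.re + 1) / 3) ((1 - z.re + s3 * z.im) / 3) (hF z)
  source := {p | 0 < W p}
  target := {z | 0 < hF z}
  map_source' := by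
    intro p hp
    change 0 < hF _
    rw [hF_eq]
    exact abs_pos.2 (ne_of_gt hp)
  map_target' := by
    intro z hz
    have hv := validF hz
    rw [Set.mem_ofPred_eq, W_mkt hv]; exact hz
  left_inv' := by
    intro p hp
    have hp' : 0 < W p := hp
    have h0 := hF_eq p
    rw [abs_of_pos hp'] at h0
    have hv := validF (z := ⟨(3 * X p - 1) / 2, s3 / 2 * (Y p - Z p)⟩) (by rw [h0]; exact hp')
    have hs := sum_eq p
    have h3 := s3_mul
    apply ext'
    · rw [X_mkt hv]; dsimp only; ring
    · rw [Y_mkt hv]; dsimp only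
      have e0 : s3 * (s3 / 2 * (Y p - Z p)) = 3 / 2 * (Y p - Z p) := by
        linear_combination (1 / 2 * (Y p - Z p)) * h3
      rw [e0]; linear_combination (-1 / 2) * hs
    · rw [W_mkt hv, h0]
  right_inv' := by
    intro z hz
    have hv := validF hz
    have h3 := s3_mul
    rw [X_mkt hv, Y_mkt hv, Z_mkt hv]
    apply Complex.ext
    · dsimp only; ring
    · dsimp only
      linear_combination (z.im / 3) * h3
  open_source := by
    exact isOpen_lt continuous_const continuous_W
  open_target := by
    exact isOpen_lt continuous_const continuous_hF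
  continuousOn_toFun := by
    exact (continuous_mkC (by fun_prop) (by fun_prop)).continuousOn
  continuousOn_invFun := by
    refine continuousOn_mkt ?_ ?_ ?_ fun z hz => validF hz
    · exact Continuous.continuousOn (by fun_prop)
    · exact Continuous.continuousOn (by fun_prop)
    · exact continuous_hF.continuousOn

lemma phiF_apply (p : D) : phiF p = ⟨(3 * X p - 1) / 2, s3 / 2 * (Y p - Z p)⟩ := rfl
lemma mem_phiF_source {p : D} : p ∈ phiF.source ↔ 0 < W p := Iff.rfl

/-! the charts are good -/

lemma W_pos_eq {p : D} (h : 0 < W p) : W p = min (X p) (min (Y p) (Z p)) := by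
  rw [← abs_W, abs_of_pos h]

lemma W_neg_eq {p : D} (h : W p < 0) : W p = -min (X p) (min (Y p) (Z p)) := by
  rw [← abs_W, abs_of_neg h, neg_neg]

lemma eventually_lt' {u v : D → ℝ} (hu : Continuous u) (hv : Continuous v) {x : D}
    (h : u x < v x) : ∀ᶠ y in 𝓝 x, u y < v y :=
  hu.continuousAt.eventually_lt hv.continuousAt h

lemma phiV_mem_Atlas : phiV ∈ Atlas := by
  rintro x ⟨h1, h2⟩ ⟨h3, h4, h5, h6⟩
  have ev1 := eventually_lt' continuous_Y continuous_X h1
  have ev2 := eventually_lt' continuous_Z continuous_X h2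
  rcases lt_or_gt_of_ne h3 with hW | hW <;> rcases lt_or_gt_of_ne h5 with hYZ | hYZ
  · -- back, Y < Z : W = -Y
    refine goodAt_back hW (-2) 2 4 0 0 (-3) ?_ (by norm_num)
    filter_upwards [ev1, ev2, eventually_back hW, eventually_lt' continuous_Y continuous_Z hYZ]
      with y a1 a2 a3 a4
    rw [phiV_apply, W_neg_eq a3, min_eq_left a4.le, min_eq_right a1.le, Z_eq]
    apply Complex.ext <;> dsimp only <;> ring
  · -- back, Z < Y : W = -Z
    refine goodAt_back hW (-2) 2 4 (-3) 3 3 ?_ (by norm_num)
    filter_upwards [ev1, ev2, eventually_back hW, eventually_lt' continuous_Z continuous_Y hYZ]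
      with y a1 a2 a3 a4
    rw [phiV_apply, W_neg_eq a3, min_eq_right a4.le, min_eq_right a2.le, Z_eq]
    apply Complex.ext <;> dsimp only <;> ring
  · refine goodAt_front hW (-2) 2 4 0 0 3 ?_ (by norm_num)
    filter_upwards [ev1, ev2, eventually_front hW, eventually_lt' continuous_Y continuous_Z hYZ]
      with y a1 a2 a3 a4
    rw [phiV_apply, W_pos_eq a3, min_eq_left a4.le, min_eq_right a1.le, Z_eq]
    apply Complex.ext <;> dsimp only <;> ring
  · refine goodAt_front hW (-2) 2 4 3 (-3) (-3) ?_ (by norm_num)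
    filter_upwards [ev1, ev2, eventually_front hW, eventually_lt' continuous_Z continuous_Y hYZ]
      with y a1 a2 a3 a4
    rw [phiV_apply, W_pos_eq a3, min_eq_right a4.le, min_eq_right a2.le, Z_eq]
    apply Complex.ext <;> dsimp only <;> ring

lemma phiM_mem_Atlas : phiM ∈ Atlas := by
  rintro x ⟨h1, h2⟩ ⟨h3, h4, h5, h6⟩
  have ev1 := eventually_lt' continuous_Z continuous_X h1
  have ev2 := eventually_lt' continuous_Z continuous_Y h2
  rcases lt_or_gt_of_ne h3 with hW | hW
  · refine goodAt_back hW (-3) 3 3 0 1 (-1) ?_ (by norm_num)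
    filter_upwards [ev1, ev2, eventually_back hW] with y a1 a2 a3
    rw [phiM_apply, W_neg_eq a3, min_eq_right a2.le, min_eq_right a1.le, Z_eq]
    apply Complex.ext <;> dsimp only <;> ring
  · refine goodAt_front hW 3 (-3) (-3) 0 1 (-1) ?_ (by norm_num)
    filter_upwards [ev1, ev2, eventually_front hW] with y a1 a2 a3
    rw [phiM_apply, W_pos_eq a3, min_eq_right a2.le, min_eq_right a1.le, Z_eq]
    apply Complex.ext <;> dsimp only <;> ring

lemma phiF_mem_Atlas : phiF ∈ Atlas := by
  intro x hx hG
  have hW : 0 < W x := hx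
  refine goodAt_front hW (-1 / 2) (3 / 2) 0 (-s3 / 2) (s3 / 2) s3 ?_ ?_
  · filter_upwards with y
    rw [phiF_apply, Z_eq]
    apply Complex.ext <;> dsimp only <;> ring
  · have := s3_pos
    linarith

end D

end Pool.Agent.Helper93.Thurston
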