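import Pool.Agent.Helper93.Thurston.Winding

/-! Branched covering maps, Thurston maps, expansion. -/

namespace Pool.Agent.Helper93.Thurston

open Set Filter Topology
open scoped ENNReal

/-- The unit sphere of `ℝ³`, with its standard topology and smooth structure. -/
abbrev S2 : Type := Metric.sphere (0 : EuclideanSpace ℝ (Fin 3)) 1

/-- A homeomorphism between open subsets of the plane preserves the orientation. -/
def OrientationPreserving (e : OpenPartialHomeomorph ℂ ℂ) : Prop := ∀ z ∈ e.source, OPAt e z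

section Top

variable {S : Type*} [TopologicalSpace S]

/-- An orientation of the surface `S`: a covering by charts with orientation preserving
changes of charts. -/
structure IsOrientedAtlas (A : Set (OpenPartialHomeomorph S ℂ)) : Prop where
  cover : ∀ p, ∃ φ ∈ A, p ∈ φ.source
  compatible : ∀ φ ∈ A, ∀ ψ ∈ A, OrientationPreserving (φ.symm.trans ψ)

/-- In the charts `φ` around `p` and `ψ` around `f p` the map `f` is `z ↦ z ^ d`. -/
def IsPowerNear (f : S → S) (p : S) (d : ℕ) (φ ψ : OpenPartialHomeomorph S ℂ) : Prop :=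
  p ∈ φ.source ∧ φ p = 0 ∧ f p ∈ ψ.source ∧ ψ (f p) = 0 ∧
    ∀ x ∈ φ.source, f x ∈ ψ.source ∧ ψ (f x) = φ x ^ d

/-- Branched covering maps (for some orientation of the surface). -/
def IsBranchedCovering (f : S → S) : Prop :=
  Continuous f ∧ ∃ A : Set (OpenPartialHomeomorph S ℂ), IsOrientedAtlas A ∧
    ∀ p, ∃ d : ℕ, 1 ≤ d ∧ ∃ φ ∈ A, ∃ ψ ∈ A, IsPowerNear f p d φ ψ

/-- The critical points: the points with local degree at least `2`. -/
def crit (f : S → S) : Set S := {p | ∃ d : ℕ, 2 ≤ d ∧ ∃ φ ψ, IsPowerNear f p d φ ψ}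

/-- The postcritical points. -/
def post (f : S → S) : Set S := ⋃ n : ℕ, ⋃ _ : 1 ≤ n, f^[n] '' crit f

/-- The topological degree: the largest number of preimages of a point. -/
noncomputable def topDegree (f : S → S) : ℕ∞ := ⨆ q, (f ⁻¹' {q}).encard

/-- Thurston maps. -/
structure IsThurstonMap (f : S → S) : Prop where
  sphere : Nonempty (S ≃ₜ S2)
  branched : IsBranchedCovering f
  degree : 2 ≤ topDegree f
  post_finite : (post f).Finite

/-- Jordan curves. -/
def IsJordanCurve (C : Set S) : Prop :=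
  ∃ γ : Circle → S, Continuous γ ∧ Function.Injective γ ∧ range γ = C

end Top

section Met

variable {S : Type*} [MetricSpace S]

/-- The supremum of the diameters of the components of `f⁻ⁿ(S ∖ C)`. -/
noncomputable def mesh (f : S → S) (n : ℕ) (C : Set S) : ℝ≥0∞ :=
  ⨆ x ∈ (f^[n]) ⁻¹' Cᶜ, Metric.ediam (connectedComponentIn ((f^[n]) ⁻¹' Cᶜ) x)

/-- Expanding maps. -/
def IsExpanding (f : S → S) : Prop :=
  ∃ C : Set S, IsJordanCurve C ∧ post f ⊆ C ∧ Tendsto (fun n => mesh f n C) atTop (𝓝 0)

end Met

end Pool.Agent.Helper93.Thurston
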