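import Pool.Agent.Helper93.Thurston.Charts

/-! The charts around the critical values. -/

namespace Pool.Agent.Helper93.Thurston

open Set Filter Topology Complex

lemma isOpenMap_pow {d : ℕ} (hd : d ≠ 0) : IsOpenMap (fun z : ℂ => z ^ d) := by
  have h : AnalyticOnNhd ℂ (fun z : ℂ => z ^ d) univ := fun z _ => analyticAt_id.pow d
  rcases h.is_constant_or_isOpenMap with ⟨w, hw⟩ | h
  · exfalso
    have h0 := hw 0
    have h1 := hw 1
    simp only [zero_pow hd, one_pow] at h0 h1
    rw [← h0] at h1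
    exact one_ne_zero h1
  · exact h

lemma mk_sq (a b : ℝ) : (⟨a, b⟩ : ℂ) ^ 2 = ⟨a ^ 2 - b ^ 2, 2 * a * b⟩ := by
  rw [sq]
  apply Complex.ext
  · rw [mul_re]; dsimp only; ring
  · rw [mul_im]; dsimp only; ring

lemma mk_cube (a b : ℝ) :
    (⟨a, b⟩ : ℂ) ^ 3 = ⟨a ^ 3 - 3 * a * b ^ 2, 3 * a ^ 2 * b - b ^ 3⟩ := by
  rw [pow_succ, mk_sq]
  apply Complex.ext
  · rw [mul_re]; dsimp only; ring
  · rw [mul_im]; dsimp only; ring

/-- Push forward of a chart along a map that looks like `z ↦ z ^ d`. -/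
lemma exists_pushChart {S : Type*} [TopologicalSpace S] (f : S → S) (hf : Continuous f)
    (φ : OpenPartialHomeomorph S ℂ) {d : ℕ} (hd : d ≠ 0) (ψ : S → ℂ) (V : Set S) (hV : IsOpen V)
    (hψ : ContinuousOn ψ V) (hinj : InjOn ψ V) [Nonempty S]
    (hsurj : ∀ y ∈ V, ∃ x ∈ φ.source, f x = y) (hrel : ∀ x ∈ φ.source, ψ (f x) = φ x ^ d) :
    ∃ e : OpenPartialHomeomorph S ℂ, e.source = V ∧ ∀ x, e x = ψ x := by
  have hopen : ∀ O : Set S, IsOpen O → O ⊆ V → IsOpen (ψ '' O) := by
    intro O hO hOV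
    have h1 : ψ '' O = (fun z : ℂ => z ^ d) '' (φ '' (φ.source ∩ f ⁻¹' O)) := by
      ext w
      constructor
      · rintro ⟨y, hy, rfl⟩
        obtain ⟨x, hx, rfl⟩ := hsurj y (hOV hy)
        exact ⟨φ x, ⟨x, ⟨hx, hy⟩, rfl⟩, (hrel x hx).symm⟩
      · rintro ⟨_, ⟨x, ⟨hx, hxO⟩, rfl⟩, rfl⟩
        exact ⟨f x, hxO, hrel x hx⟩
    rw [h1]
    exact isOpenMap_pow hd _ (φ.isOpen_image_source_inter (hO.preimage hf))
  refine ⟨OpenPartialHomeomorph.ofContinuousOpenRestrict (hinj.toPartialEquiv ψ V) ?_ ?_ hV,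
    rfl, fun x => rfl⟩
  · exact hψ
  · intro O hO
    have h2 : IsOpen (Subtype.val '' O) := hV.isOpenMap_subtype_val O hO
    have h3 : (V.domRestrict ψ) '' O = ψ '' (Subtype.val '' O) := by
      rw [image_image]; rfl
    change IsOpen ((V.domRestrict ψ) '' O)
    rw [h3]
    refine hopen _ h2 ?_
    rintro _ ⟨y, _, rfl⟩
    exact y.2

namespace D

instance : Nonempty D := ⟨v1⟩

lemma sign_mul_abs' (w : ℝ) : Real.sign w * |w| = w := by
  rcases lt_trichotomy w 0 with h | h | h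
  · rw [Real.sign_of_neg h, abs_of_neg h]; ring
  · rw [h]; simp
  · rw [Real.sign_of_pos h, abs_of_pos h]; ring

lemma sign_sign_mul {a m k : ℝ} (hm : 0 ≤ m) (hk : m = 0 → k = 0) :
    Real.sign (Real.sign a * m) * k = Real.sign a * k := by
  rcases hm.eq_or_lt with h | h
  · rw [hk h.symm, mul_zero, mul_zero]
  · congr 1
    rcases lt_trichotomy a 0 with ha | ha | ha
    · rw [Real.sign_of_neg ha, Real.sign_of_neg (by linarith)]
    · rw [ha]; simp
    · rw [Real.sign_of_pos ha, Real.sign_of_pos (by linarith)]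

lemma sign_mul' (a b : ℝ) : Real.sign (a * b) = Real.sign a * Real.sign b := by
  rcases lt_trichotomy a 0 with ha | ha | ha <;> rcases lt_trichotomy b 0 with hb | hb | hb
  · rw [Real.sign_of_neg ha, Real.sign_of_neg hb, Real.sign_of_pos (mul_pos_of_neg_of_neg ha hb)]
    norm_num
  · rw [hb]; simp
  · rw [Real.sign_of_neg ha, Real.sign_of_pos hb, Real.sign_of_neg (mul_neg_of_neg_of_pos ha hb)]
    norm_num
  · rw [ha]; simp
  · rw [ha]; simp
  · rw [ha]; simp
  · rw [Real.sign_of_pos ha, Real.sign_of_neg hb, Real.sign_of_neg (mul_neg_of_pos_of_neg ha hb)]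
    norm_num
  · rw [hb]; simp
  · rw [Real.sign_of_pos ha, Real.sign_of_pos hb, Real.sign_of_pos (mul_pos ha hb)]
    norm_num

/-- Two points with the same coordinates on the same face are equal. -/
lemma eq_of_sign {p q : D} (hX : X p = X q) (hY : Y p = Y q) {k : ℝ} (hk : W p ≠ 0 → k ≠ 0)
    (h : Real.sign (W p) * k = Real.sign (W q) * k) : p = q := by
  have habs : |W p| = |W q| := by
    rw [abs_W, abs_W, Z_eq, Z_eq, hX, hY]
  refine ext' hX hY ?_
  by_cases hp : W p = 0
  · rw [hp, abs_zero] at habs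
    rw [hp, abs_eq_zero.1 habs.symm]
  · have h1 := mul_right_cancel₀ (hk hp) h
    rw [← sign_mul_abs' (W p), ← sign_mul_abs' (W q), h1, habs]

/-- inverse branch -/
noncomputable def pre (y : D) : D := mkt (X y + Y y / 2 + Z y / 3) (Y y / 2 + Z y / 3)
  ((open Classical in if W y < 0 then (-1 : ℝ) else 1) * (Z y / 3))

lemma pre_valid (y : D) : |(open Classical in if W y < 0 then (-1 : ℝ) else 1) * (Z y / 3)| =
    min (X y + Y y / 2 + Z y / 3) (min (Y y / 2 + Z y / 3)
      (1 - (X y + Y y / 2 + Z y / 3) - (Y y / 2 + Z y / 3))) := by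
  have hs := sum_eq y
  have h1 := X_nonneg y
  have h2 := Y_nonneg y
  have h3 := Z_nonneg y
  have e : |(open Classical in if W y < 0 then (-1 : ℝ) else 1) * (Z y / 3)| = Z y / 3 := by
    rw [abs_mul, abs_of_nonneg (by linarith : 0 ≤ Z y / 3)]
    split_ifs <;> norm_num
  rw [e, show 1 - (X y + Y y / 2 + Z y / 3) - (Y y / 2 + Z y / 3) = Z y / 3 by linarith]
  rw [min_eq_right (a := Y y / 2 + Z y / 3) (by linarith), min_eq_right (by linarith)]

lemma X_pre (y : D) : X (pre y) = X y + Y y / 2 + Z y / 3 := X_mkt (pre_valid y)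
lemma Y_pre (y : D) : Y (pre y) = Y y / 2 + Z y / 3 := Y_mkt (pre_valid y)
lemma Z_pre (y : D) : Z (pre y) = Z y / 3 := by
  have hs := sum_eq y
  rw [Z_eq, X_pre, Y_pre]; linarith
lemma W_pre (y : D) : W (pre y) = (open Classical in if W y < 0 then (-1 : ℝ) else 1) * (Z y / 3) :=
  W_mkt (pre_valid y)

lemma W_pre_nonneg {y : D} (h : 0 ≤ W y) : W (pre y) = Z y / 3 := by
  rw [W_pre, if_neg (not_lt.2 h), one_mul]
lemma W_pre_neg {y : D} (h : W y < 0) : W (pre y) = -(Z y / 3) := by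
  rw [W_pre, if_pos h, neg_one_mul]

lemma order_pre (y : D) : Y (pre y) ≤ X (pre y) ∧ Z (pre y) ≤ Y (pre y) := by
  rw [X_pre, Y_pre, Z_pre]
  have h1 := X_nonneg y
  have h2 := Y_nonneg y
  constructor <;> linarith

lemma sorted {p : D} (h1 : Y p ≤ X p) (h2 : Z p ≤ Y p) : mx p = X p ∧ md p = Y p ∧ mn p = Z p := by
  have hs := sum_eq p
  have e1 : mx p = X p := by unfold mx; rw [max_eq_left h2, max_eq_left h1]
  have e3 : mn p = Z p := by unfold mn; rw [min_eq_right h2, min_eq_right (h2.trans h1)]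
  refine ⟨e1, ?_, e3⟩
  unfold md; rw [e1, e3]; linarith

lemma F_pre (y : D) : F (pre y) = y := by
  obtain ⟨h1, h2⟩ := order_pre y
  obtain ⟨e1, e2, e3⟩ := sorted h1 h2
  have t1 : T1 (pre y) = X y := by unfold T1; rw [e1, e2, X_pre, Y_pre]; ring
  have t2 : T2 (pre y) = Y y := by unfold T2; rw [e2, e3, Z_pre, Y_pre]; ring
  have t3 : T3 (pre y) = Z y := by unfold T3; rw [e3, Z_pre]; ring
  have hm : Tm (pre y) = |W y| := by unfold Tm; rw [t1, t2, t3, abs_W]
  apply ext'
  · rw [X_F, t1]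
  · rw [Y_F, t2]
  · rw [W_F, hm]
    by_cases hW : W y = 0
    · rw [hW, abs_zero, mul_zero]
    · have hpos : 0 < min (X y) (min (Y y) (Z y)) := by rw [← abs_W]; exact abs_pos.2 hW
      obtain ⟨a1, a23⟩ := lt_min_iff.1 hpos
      obtain ⟨a2, a3⟩ := lt_min_iff.1 a23
      have hV : 0 < V (pre y) := by
        unfold V; rw [X_pre, Y_pre, Z_pre]
        refine mul_pos (mul_pos ?_ ?_) ?_ <;> linarith
      have hs : Real.sign (W (pre y) * V (pre y)) = Real.sign (W y) := by
        rcases lt_or_gt_of_ne hW with h | h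
        · rw [W_pre_neg h, Real.sign_of_neg h, Real.sign_of_neg]
          exact mul_neg_of_neg_of_pos (by linarith) hV
        · rw [W_pre_nonneg h.le, Real.sign_of_pos h, Real.sign_of_pos]
          exact mul_pos (by linarith) hV
      rw [hs, sign_mul_abs']

/-! ### the first two -/

noncomputable def fpsi1 (p : D) : ℂ := ⟨Y p ^ 2 - Z p ^ 2, Real.sign (W p) * (2 * (Y p * Z p))⟩

lemma W_eq_zero_YZ {p : D} (hX : 0 < X p) (h : W p = 0) : Y p * Z p = 0 := by
  have h1 := abs_W p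
  rw [h, abs_zero] at h1
  rcases min_choice (X p) (min (Y p) (Z p)) with h2 | h2
  · rw [h2] at h1; linarith
  · rw [h2] at h1
    rcases min_choice (Y p) (Z p) with h3 | h3 <;> rw [h3] at h1 <;> rw [← h1] <;> simp

lemma continuousOn_sign_mul {T : Type*} [TopologicalSpace T] {s : Set T} {w m : T → ℝ}
    (hw : Continuous w) (hm : Continuous m) (h : ∀ t ∈ s, w t = 0 → m t = 0) :
    ContinuousOn (fun t => Real.sign (w t) * m t) s := by
  rw [continuousOn_iff_continuous_domRestrict]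
  exact continuous_sign_mul (hw.comp continuous_subtype_val) (hm.comp continuous_subtype_val)
    fun t => h t.1 t.2

lemma continuousOn_fpsi1 : ContinuousOn fpsi1 {p | 0 < X p} := by
  have h : ContinuousOn (fun p => (Y p ^ 2 - Z p ^ 2, Real.sign (W p) * (2 * (Y p * Z p))))
      {p | 0 < X p} := by
    refine ContinuousOn.prodMk (Continuous.continuousOn (by fun_prop)) ?_
    refine continuousOn_sign_mul continuous_W (by fun_prop) fun p hp h0 => ?_
    rw [W_eq_zero_YZ hp h0, mul_zero]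
  exact Complex.equivRealProdCLM.symm.continuous.comp_continuousOn h

lemma abs_im_fpsi1 {p : D} (hX : 0 < X p) : |(fpsi1 p).im| = 2 * (Y p * Z p) := by
  have h1 := Y_nonneg p
  have h2 := Z_nonneg p
  refine abs_sign_mul (by positivity) fun h => ?_
  rw [W_eq_zero_YZ hX h, mul_zero]

lemma injOn_fpsi1 : InjOn fpsi1 {p | 0 < X p} := by
  intro p hp q hq h
  have hp' : 0 < X p := hp
  have hq' : 0 < X q := hq
  have hre : Y p ^ 2 - Z p ^ 2 = Y q ^ 2 - Z q ^ 2 := congrArg Complex.re h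
  have him : Real.sign (W p) * (2 * (Y p * Z p)) = Real.sign (W q) * (2 * (Y q * Z q)) :=
    congrArg Complex.im h
  have habs : 2 * (Y p * Z p) = 2 * (Y q * Z q) := by
    rw [← abs_im_fpsi1 hp', ← abs_im_fpsi1 hq', h]
  have p1 := Y_nonneg p
  have p2 := Z_nonneg p
  have q1 := Y_nonneg q
  have q2 := Z_nonneg q
  have hsum : Y p ^ 2 + Z p ^ 2 = Y q ^ 2 + Z q ^ 2 := by
    have h1 : (Y p ^ 2 + Z p ^ 2) ^ 2 = (Y q ^ 2 + Z q ^ 2) ^ 2 := by
      have e1 : (Y p ^ 2 + Z p ^ 2) ^ 2 = (Y p ^ 2 - Z p ^ 2) ^ 2 + (2 * (Y p * Z p)) ^ 2 := by ring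
      have e2 : (Y q ^ 2 + Z q ^ 2) ^ 2 = (Y q ^ 2 - Z q ^ 2) ^ 2 + (2 * (Y q * Z q)) ^ 2 := by ring
      rw [e1, e2, hre, habs]
    exact (pow_left_inj₀ (by positivity) (by positivity) two_ne_zero).1 h1
  have hY : Y p = Y q := by
    have : Y p ^ 2 = Y q ^ 2 := by linarith
    exact (pow_left_inj₀ p1 q1 two_ne_zero).1 this
  have hZ : Z p = Z q := by
    have : Z p ^ 2 = Z q ^ 2 := by linarith
    exact (pow_left_inj₀ p2 q2 two_ne_zero).1 this
  have hX : X p = X q := by
    have := sum_eq p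
    have := sum_eq q
    linarith
  refine eq_of_sign hX hY (k := 2 * (Y p * Z p)) (fun hW => ?_) (by rw [him, habs])
  have hpos : 0 < min (X p) (min (Y p) (Z p)) := by rw [← abs_W]; exact abs_pos.2 hW
  obtain ⟨a1, a23⟩ := lt_min_iff.1 hpos
  obtain ⟨a2, a3⟩ := lt_min_iff.1 a23
  positivity

lemma fpsi1_F {x : D} (h : x ∈ phiV.source) : fpsi1 (F x) = phiV x ^ 2 := by
  obtain ⟨h1, h2⟩ := mem_phiV_source.1 h
  have hs := sum_eq x
  have hmx : mx x = X x := by unfold mx; rw [max_eq_left (max_le h1.le h2.le)]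
  have hmn : mn x = min (Y x) (Z x) := by
    unfold mn; rw [min_eq_right (by rw [min_le_iff]; left; exact h1.le)]
  have hT2 : T2 x = 2 * |Y x - Z x| := by
    unfold T2 md; rw [hmx, hmn]
    rcases le_total (Y x) (Z x) with h | h
    · rw [min_eq_left h, abs_of_nonpos (by linarith)]; linarith
    · rw [min_eq_right h, abs_of_nonneg (by linarith)]; linarith
  have hT3 : T3 x = 3 * |W x| := by unfold T3; rw [abs_W_eq_mn]
  have hT1 : 0 < T1 x := by
    unfold T1 md; rw [hmx, hmn]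
    rcases le_total (Y x) (Z x) with h | h
    · rw [min_eq_left h]; linarith
    · rw [min_eq_right h]; linarith
  have hsV : Real.sign (V x) = Real.sign (Y x - Z x) := by
    unfold V
    rw [sign_mul', sign_mul', Real.sign_of_pos (by linarith : 0 < X x - Y x),
      Real.sign_of_pos (by linarith : 0 < X x - Z x), one_mul, mul_one]
  unfold fpsi1
  rw [Y_F, Z_F, W_F, phiV_apply]
  have key : Real.sign (Real.sign (W x * V x) * Tm x) * (2 * (T2 x * T3 x)) =
      12 * (Y x - Z x) * W x := by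
    rw [sign_sign_mul (Tm_nonneg x)]
    · rw [sign_mul', hsV, hT2, hT3]
      calc Real.sign (W x) * Real.sign (Y x - Z x) * (2 * (2 * |Y x - Z x| * (3 * |W x|)))
          = 12 * (Real.sign (Y x - Z x) * |Y x - Z x|) * (Real.sign (W x) * |W x|) := by ring
        _ = _ := by rw [sign_mul_abs', sign_mul_abs']
    · intro h0
      unfold Tm at h0
      rcases min_choice (T1 x) (min (T2 x) (T3 x)) with h3 | h3
      · rw [h3] at h0; linarith
      · rw [h3] at h0
        rcases min_choice (T2 x) (T3 x) with h4 | h4 <;> rw [h4] at h0 <;> rw [h0] <;> simp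
  rw [key, hT2, hT3, mk_sq]
  apply Complex.ext
  · dsimp only
    rw [mul_pow, mul_pow, sq_abs, sq_abs]; ring
  · dsimp only
    ring

lemma exists_psi1 : ∃ e : OpenPartialHomeomorph D ℂ, e.source = {p | 0 < X p} ∧
    ∀ x, e x = fpsi1 x := by
  refine exists_pushChart F continuous_F phiV two_ne_zero fpsi1 {p | 0 < X p}
    (isOpen_lt continuous_const continuous_X) continuousOn_fpsi1 injOn_fpsi1 ?_
    fun x hx => fpsi1_F hx
  intro y hy
  have hy' : 0 < X y := hy
  refine ⟨pre y, ?_, F_pre y⟩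
  rw [mem_phiV_source, X_pre, Y_pre, Z_pre]
  have h1 := X_nonneg y
  have h2 := Y_nonneg y
  constructor <;> linarith

noncomputable def psi1 : OpenPartialHomeomorph D ℂ := exists_psi1.choose
lemma psi1_source : psi1.source = {p | 0 < X p} := exists_psi1.choose_spec.1
lemma psi1_apply (x : D) : psi1 x = fpsi1 x := exists_psi1.choose_spec.2 x

lemma coords_pos {p : D} (h : W p ≠ 0) : 0 < X p ∧ 0 < Y p ∧ 0 < Z p := by
  have hpos : 0 < min (X p) (min (Y p) (Z p)) := by rw [← abs_W]; exact abs_pos.2 h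
  obtain ⟨a1, a23⟩ := lt_min_iff.1 hpos
  obtain ⟨a2, a3⟩ := lt_min_iff.1 a23
  exact ⟨a1, a2, a3⟩

lemma psi1_mem_Atlas : psi1 ∈ Atlas := by
  intro x _ hG
  obtain ⟨h3, h4, h5, h6⟩ := hG
  obtain ⟨p1, p2, p3⟩ := coords_pos h3
  have hg : GoodAt (fun p => (⟨Y p, Real.sign (W p) * Z p⟩ : ℂ)) x := by
    rcases lt_or_gt_of_ne h3 with hW | hW
    · refine goodAt_back hW 0 0 1 (-1) 1 1 ?_ (by norm_num)
      filter_upwards [eventually_back hW] with y hy
      rw [Real.sign_of_neg hy, Z_eq]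
      apply Complex.ext <;> dsimp only <;> ring
    · refine goodAt_front hW 0 0 1 1 (-1) (-1) ?_ (by norm_num)
      filter_upwards [eventually_front hW] with y hy
      rw [Real.sign_of_pos hy, Z_eq]
      apply Complex.ext <;> dsimp only <;> ring
  have h7 := hg.comp_holo (H := fun z => z ^ 2)
    (c := 2 * (⟨Y x, Real.sign (W x) * Z x⟩ : ℂ)) ?_ ?_
  · refine h7.congr ?_
    filter_upwards [continuous_W.continuousAt.eventually_ne h3] with y hy
    rw [psi1_apply, fpsi1]
    have hsq : Real.sign (W y) * Real.sign (W y) = 1 := by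
      rcases Real.sign_apply_eq_of_ne_zero _ hy with h | h <;> rw [h] <;> norm_num
    rw [mk_sq]
    apply Complex.ext
    · dsimp only
      linear_combination (Z y ^ 2) * hsq
    · dsimp only
      ring
  · refine mul_ne_zero two_ne_zero fun h => ?_
    have := congrArg Complex.re h
    simp only [zero_re] at this
    linarith
  · have := hasDerivAt_pow 2 (⟨Y x, Real.sign (W x) * Z x⟩ : ℂ)
    simpa using this

end D

end Pool.Agent.Helper93.Thurston
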