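import Pool.Agent.Helper93.Thurston.Psi

/-! The charts around the critical values, continued. -/

namespace Pool.Agent.Helper93.Thurston

open Set Filter Topology Complex

namespace D

noncomputable def psi2 : OpenPartialHomeomorph D ℂ := rot.toOpenPartialHomeomorph.trans psi1

lemma psi2_source : psi2.source = {p | 0 < Y p} := by
  unfold psi2
  rw [OpenPartialHomeomorph.trans_source, psi1_source]
  ext p
  simp

lemma psi2_apply (p : D) : psi2 p = fpsi1 (rotFun p) := psi1_apply _

lemma psi2_mem_Atlas : psi2 ∈ Atlas := rot_trans_mem psi1_mem_Atlas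

lemma psi2_F {x : D} (h : x ∈ phiM.source) : psi2 (F x) = phiM x ^ 2 := by
  obtain ⟨h1, h2⟩ := mem_phiM_source.1 h
  have hs := sum_eq x
  have hmn : mn x = Z x := by unfold mn; rw [min_eq_right h2.le, min_eq_right h1.le]
  have hmx : mx x = max (X x) (Y x) := by unfold mx; rw [max_eq_left h2.le]
  have hT1 : T1 x = |X x - Y x| := by
    unfold T1 md; rw [hmx, hmn]
    rcases le_total (X x) (Y x) with h | h
    · rw [max_eq_right h, abs_of_nonpos (by linarith)]; linarith
    · rw [max_eq_left h, abs_of_nonneg (by linarith)]; linarith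
  have hT3 : T3 x = 3 * |W x| := by unfold T3; rw [abs_W_eq_mn]
  have hT2 : 0 < T2 x := by
    unfold T2 md; rw [hmx, hmn]
    rcases le_total (X x) (Y x) with h | h
    · rw [max_eq_right h]; linarith
    · rw [max_eq_left h]; linarith
  have hsV : Real.sign (V x) = Real.sign (X x - Y x) := by
    unfold V
    rw [sign_mul', sign_mul', Real.sign_of_pos (by linarith : 0 < Y x - Z x),
      Real.sign_of_pos (by linarith : 0 < X x - Z x), mul_one, mul_one]
  rw [psi2_apply]
  unfold fpsi1
  rw [Y_rotFun, Z_rotFun, W_rotFun, X_F, Z_F, W_F, phiM_apply]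
  have key : Real.sign (Real.sign (W x * V x) * Tm x) * (2 * (T3 x * T1 x)) =
      6 * W x * (X x - Y x) := by
    rw [sign_sign_mul (Tm_nonneg x)]
    · rw [sign_mul', hsV, hT1, hT3]
      calc Real.sign (W x) * Real.sign (X x - Y x) * (2 * (3 * |W x| * |X x - Y x|))
          = 6 * (Real.sign (W x) * |W x|) * (Real.sign (X x - Y x) * |X x - Y x|) := by ring
        _ = _ := by rw [sign_mul_abs', sign_mul_abs']
    · intro h0
      unfold Tm at h0
      rcases min_choice (T1 x) (min (T2 x) (T3 x)) with h3 | h3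
      · rw [h3] at h0; rw [h0]; simp
      · rw [h3] at h0
        rcases min_choice (T2 x) (T3 x) with h4 | h4
        · rw [h4] at h0; linarith
        · rw [h4] at h0; rw [h0]; simp
  rw [key, hT1, hT3, mk_sq]
  apply Complex.ext
  · dsimp only
    rw [mul_pow, mul_pow, sq_abs, sq_abs]
  · dsimp only
    ring

/-! ### the third one -/

/-- the cubic -/
noncomputable def fpsi3 (p : D) : ℂ :=
  ⟨(X p + Y p / 4) * (X p - Y p / 2) * (X p + Y p),
    Real.sign (W p) * (3 * s3 / 4 * (X p * Y p * (X p + Y p / 2)))⟩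

lemma W_eq_zero_XY {p : D} (hZ : 0 < Z p) (h : W p = 0) : X p * Y p = 0 := by
  have h1 := abs_W p
  rw [h, abs_zero] at h1
  rcases min_choice (X p) (min (Y p) (Z p)) with h2 | h2
  · rw [h2] at h1; rw [← h1, zero_mul]
  · rw [h2] at h1
    rcases min_choice (Y p) (Z p) with h3 | h3
    · rw [h3] at h1; rw [← h1, mul_zero]
    · rw [h3] at h1; linarith

lemma continuousOn_fpsi3 : ContinuousOn fpsi3 {p | 0 < Z p} := by
  have h : ContinuousOn (fun p => ((X p + Y p / 4) * (X p - Y p / 2) * (X p + Y p),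
      Real.sign (W p) * (3 * s3 / 4 * (X p * Y p * (X p + Y p / 2)))))
      {p | 0 < Z p} := by
    refine ContinuousOn.prodMk (Continuous.continuousOn (by fun_prop)) ?_
    refine continuousOn_sign_mul continuous_W (by fun_prop) fun p hp h0 => ?_
    rw [W_eq_zero_XY hp h0, zero_mul, mul_zero]
  exact Complex.equivRealProdCLM.symm.continuous.comp_continuousOn h

lemma abs_im_fpsi3 {p : D} (hZ : 0 < Z p) :
    |(fpsi3 p).im| = 3 * s3 / 4 * (X p * Y p * (X p + Y p / 2)) := by
  have h1 := X_nonneg p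
  have h2 := Y_nonneg p
  have h3 := s3_pos
  refine abs_sign_mul (by positivity) fun h => ?_
  rw [W_eq_zero_XY hZ h, zero_mul, mul_zero]

lemma sector_aux {a b a' b' : ℝ} (ha : 0 ≤ a) (hb : 0 ≤ b) (ha' : 0 ≤ a') (hb' : 0 ≤ b')
    (hN : a ^ 2 + a * b + b ^ 2 = a' ^ 2 + a' * b' + b' ^ 2)
    (hP : a * b * (a + b) = a' * b' * (a' + b'))
    (hR : (a + b / 2) * (a - b) * (a + 2 * b) = (a' + b' / 2) * (a' - b') * (a' + 2 * b')) :
    a = a' ∧ b = b' := by
  set N := a ^ 2 + a * b + b ^ 2 with hNdef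
  have hab := mul_nonneg ha hb
  have hab' := mul_nonneg ha' hb'
  have ht : (a + b) = (a' + b') := by
    by_contra hne
    have h1 : (a + b) ^ 2 - N = a * b := by rw [hNdef]; ring
    have h2 : (a' + b') ^ 2 - N = a' * b' := by rw [hN]; ring
    have h3 : ((a + b) - (a' + b')) *
        ((a + b) ^ 2 + (a + b) * (a' + b') + (a' + b') ^ 2 - N) = 0 := by
      linear_combination (a + b) * h1 - (a' + b') * h2 + hP
    rcases mul_eq_zero.1 h3 with h | h
    · exact hne (by linarith)
    · have t0 : 0 ≤ a + b := by linarith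
      have t0' : 0 ≤ a' + b' := by linarith
      have tt := mul_nonneg t0 t0'
      have e1 : (a' + b') ^ 2 ≤ 0 := by nlinarith
      have e2 : (a + b) ^ 2 ≤ 0 := by nlinarith
      have e3 : a' + b' = 0 := by nlinarith
      have e4 : a + b = 0 := by nlinarith
      exact hne (by rw [e3, e4])
  have hm : a * b = a' * b' := by
    have h1 : (a + b) ^ 2 - N = a * b := by rw [hNdef]; ring
    have h2 : (a' + b') ^ 2 - N = a' * b' := by rw [hN]; ring
    rw [← h1, ← h2, ht]
  have h4 : (a - a') * (a - b') = 0 := by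
    linear_combination a * ht - hm
  rcases mul_eq_zero.1 h4 with h | h
  · have : a = a' := by linarith
    exact ⟨this, by linarith⟩
  · have e1 : b' = a := by linarith
    have e2 : a' = b := by linarith
    rw [e1, e2] at hR
    have h5 : (a - b) * ((a + 2 * b) * (2 * a + b)) = 0 := by
      linear_combination hR
    rcases mul_eq_zero.1 h5 with h6 | h6
    · rw [e1, e2]; constructor <;> linarith
    · rcases mul_eq_zero.1 h6 with h7 | h7
      · rw [e1, e2]; constructor <;> linarith
      · rw [e1, e2]; constructor <;> linarith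

lemma injOn_fpsi3 : InjOn fpsi3 {p | 0 < Z p} := by
  intro p hp q hq h
  have hp' : 0 < Z p := hp
  have hq' : 0 < Z q := hq
  have hre : (X p + Y p / 4) * (X p - Y p / 2) * (X p + Y p) =
    (X q + Y q / 4) * (X q - Y q / 2) * (X q + Y q) := congrArg Complex.re h
  have him : Real.sign (W p) * (3 * s3 / 4 * (X p * Y p * (X p + Y p / 2))) =
      Real.sign (W q) * (3 * s3 / 4 * (X q * Y q * (X q + Y q / 2))) :=
    congrArg Complex.im h
  have habs : 3 * s3 / 4 * (X p * Y p * (X p + Y p / 2)) =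
      3 * s3 / 4 * (X q * Y q * (X q + Y q / 2)) := by
    rw [← abs_im_fpsi3 hp', ← abs_im_fpsi3 hq', h]
  have h3 := s3_pos
  have hP : X p * Y p * (X p + Y p / 2) = X q * Y q * (X q + Y q / 2) :=
    mul_left_cancel₀ (by positivity) habs
  have p1 := X_nonneg p
  have p2 := Y_nonneg p
  have q1 := X_nonneg q
  have q2 := Y_nonneg q
  have cube : ∀ a b : ℝ, (a ^ 2 + a * (b / 2) + (b / 2) ^ 2) ^ 3 =
      ((a + b / 4) * (a - b / 2) * (a + b)) ^ 2 + 27 / 16 * (a * b * (a + b / 2)) ^ 2 := by
    intro a b; ring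
  have hN : X p ^ 2 + X p * (Y p / 2) + (Y p / 2) ^ 2 =
      X q ^ 2 + X q * (Y q / 2) + (Y q / 2) ^ 2 := by
    refine (pow_left_inj₀ (by positivity) (by positivity) (three_ne_zero)).1 ?_
    rw [cube, cube, hre, hP]
  obtain ⟨e1, e2⟩ := sector_aux (a := X p) (b := Y p / 2) (a' := X q) (b' := Y q / 2) p1
    (by positivity) q1 (by positivity) hN (by linarith) (by linarith)
  have hY : Y p = Y q := by linarith
  refine eq_of_sign e1 hY (k := 3 * s3 / 4 * (X p * Y p * (X p + Y p / 2))) (fun hW => ?_)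
    (by rw [him, habs])
  obtain ⟨a1, a2, a3⟩ := coords_pos hW
  positivity

lemma fpsi3_F {x : D} (h : x ∈ phiF.source) : fpsi3 (F x) = phiF x ^ 3 := by
  have hW : 0 < W x := h
  have hs := sum_eq x
  have hZ : Z x = 1 - X x - Y x := Z_eq x
  have h3 := s3_mul
  have hT3 : 0 < T3 x := by
    unfold T3; rw [← abs_W_eq_mn, abs_of_pos hW]; linarith
  unfold fpsi3
  rw [X_F, Y_F, W_F, phiF_apply, mk_cube]
  have key : Real.sign (Real.sign (W x * V x) * Tm x) *
      (3 * s3 / 4 * (T1 x * T2 x * (T1 x + T2 x / 2))) = 3 * s3 / 2 * V x := by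
    rw [sign_sign_mul (Tm_nonneg x)]
    · rw [sign_mul', Real.sign_of_pos hW, one_mul]
      have e : 3 * s3 / 4 * (T1 x * T2 x * (T1 x + T2 x / 2)) = 3 * s3 / 2 * |V x| := by
        rw [abs_V]; ring
      rw [e]
      calc Real.sign (V x) * (3 * s3 / 2 * |V x|) = 3 * s3 / 2 * (Real.sign (V x) * |V x|) := by
            ring
        _ = _ := by rw [sign_mul_abs']
    · intro h0
      unfold Tm at h0
      rcases min_choice (T1 x) (min (T2 x) (T3 x)) with h3 | h3
      · rw [h3] at h0; rw [h0]; simp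
      · rw [h3] at h0
        rcases min_choice (T2 x) (T3 x) with h4 | h4
        · rw [h4] at h0; rw [h0]; simp
        · rw [h4] at h0; linarith
  rw [key]
  have hre : (T1 x + T2 x / 4) * (T1 x - T2 x / 2) * (T1 x + T2 x) =
      1 / 2 * (2 * X x - Y x - Z x) * (X x - 2 * Y x + Z x) * (X x + Y x - 2 * Z x) := by
    unfold T1 T2
    rcases order_cases x with h | h | h | h | h | h <;> obtain ⟨_, _, e1, e2, e3⟩ := h <;>
      rw [e1, e2, e3] <;> ring
  rw [hre]
  apply Complex.ext
  · dsimp only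
    rw [hZ]
    linear_combination (9 / 4 * ((3 * X x - 1) / 2) * (X x + 2 * Y x - 1) ^ 2 / 3) * h3
  · dsimp only
    unfold V
    rw [hZ]
    linear_combination (1 / 8 * s3 * (X x + 2 * Y x - 1) ^ 3) * h3

lemma exists_psi3 : ∃ e : OpenPartialHomeomorph D ℂ, e.source = {p | 0 < Z p} ∧
    ∀ x, e x = fpsi3 x := by
  refine exists_pushChart F continuous_F phiF three_ne_zero fpsi3 {p | 0 < Z p}
    (isOpen_lt continuous_const continuous_Z) continuousOn_fpsi3 injOn_fpsi3 ?_
    fun x hx => fpsi3_F hx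
  intro y hy
  have hy' : 0 < Z y := hy
  rcases le_or_gt 0 (W y) with h | h
  · refine ⟨pre y, ?_, F_pre y⟩
    rw [mem_phiF_source, W_pre_nonneg h]
    positivity
  · refine ⟨flipFun (pre y), ?_, by rw [F_flip, F_pre y]⟩
    rw [mem_phiF_source, W_flipFun, W_pre_neg h, neg_neg]
    positivity

noncomputable def psi3 : OpenPartialHomeomorph D ℂ := exists_psi3.choose
lemma psi3_source : psi3.source = {p | 0 < Z p} := exists_psi3.choose_spec.1
lemma psi3_apply (x : D) : psi3 x = fpsi3 x := exists_psi3.choose_spec.2 x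

lemma psi3_mem_Atlas : psi3 ∈ Atlas := by
  intro x _ hG
  obtain ⟨h3, h4, h5, h6⟩ := hG
  obtain ⟨p1, p2, p3⟩ := coords_pos h3
  have hs3 := s3_pos
  have hg : GoodAt (fun p => (⟨X p + Y p / 4, Real.sign (W p) * (s3 / 4 * Y p)⟩ : ℂ)) x := by
    rcases lt_or_gt_of_ne h3 with hW | hW
    · refine goodAt_back hW 0 1 (1 / 4) 0 0 (-(s3 / 4)) ?_ (by linarith)
      filter_upwards [eventually_back hW] with y hy
      rw [Real.sign_of_neg hy]
      apply Complex.ext <;> dsimp only <;> ring
    · refine goodAt_front hW 0 1 (1 / 4) 0 0 (s3 / 4) ?_ (by linarith)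
      filter_upwards [eventually_front hW] with y hy
      rw [Real.sign_of_pos hy]
      apply Complex.ext <;> dsimp only <;> ring
  have h7 := hg.comp_holo (H := fun z => z ^ 3)
    (c := 3 * (⟨X x + Y x / 4, Real.sign (W x) * (s3 / 4 * Y x)⟩ : ℂ) ^ 2) ?_ ?_
  · refine h7.congr ?_
    filter_upwards [continuous_W.continuousAt.eventually_ne h3] with y hy
    rw [psi3_apply, fpsi3]
    have hsq : Real.sign (W y) * Real.sign (W y) = 1 := by
      rcases Real.sign_apply_eq_of_ne_zero _ hy with h | h <;> rw [h] <;> norm_num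
    have hm := s3_mul
    rw [mk_cube]
    apply Complex.ext
    · dsimp only
      linear_combination (3 * (X y + Y y / 4) * (Y y) ^ 2 / 16) *
        (s3 ^ 2 * hsq + hm)
    · dsimp only
      linear_combination (1 / 64 * Real.sign (W y) * s3 * (Y y) ^ 3) *
        (s3 ^ 2 * hsq + hm)
  · refine mul_ne_zero three_ne_zero (pow_ne_zero _ fun h => ?_)
    have := congrArg Complex.re h
    simp only [zero_re] at this
    linarith
  · have := hasDerivAt_pow 3 (⟨X x + Y x / 4, Real.sign (W x) * (s3 / 4 * Y x)⟩ : ℂ)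
    simpa using this

end D

end Pool.Agent.Helper93.Thurston
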