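import Pool.Agent.Helper93.Thurston.Defs

/-! The doubled triangle and the barycentric subdivision map. -/

namespace Pool.Agent.Helper93.Thurston

open Set Filter Topology

/-- The doubled triangle, as the boundary of a bipyramid. -/
def D : Type := {p : ℝ × ℝ × ℝ // |p.2.2| = min p.1 (min p.2.1 (1 - p.1 - p.2.1))}

noncomputable instance : MetricSpace D :=
  inferInstanceAs (MetricSpace {p : ℝ × ℝ × ℝ // |p.2.2| = min p.1 (min p.2.1 (1 - p.1 - p.2.1))})

namespace D

def X (p : D) : ℝ := p.1.1
def Y (p : D) : ℝ := p.1.2.1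
def Z (p : D) : ℝ := 1 - p.1.1 - p.1.2.1
def W (p : D) : ℝ := p.1.2.2

@[fun_prop] lemma continuous_X : Continuous X :=
  continuous_fst.comp continuous_subtype_val
@[fun_prop] lemma continuous_Y : Continuous Y :=
  continuous_fst.comp (continuous_snd.comp continuous_subtype_val)
@[fun_prop] lemma continuous_W : Continuous W :=
  continuous_snd.comp (continuous_snd.comp continuous_subtype_val)
@[fun_prop] lemma continuous_Z : Continuous Z :=
  (continuous_const.sub continuous_X).sub continuous_Y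

lemma sum_eq (p : D) : X p + Y p + Z p = 1 := by simp only [X, Y, Z]; ring
lemma Z_eq (p : D) : Z p = 1 - X p - Y p := rfl

lemma abs_W (p : D) : |W p| = min (X p) (min (Y p) (Z p)) := p.2

lemma X_nonneg (p : D) : 0 ≤ X p :=
  le_trans (abs_nonneg _) ((abs_W p).le.trans (min_le_left _ _))
lemma Y_nonneg (p : D) : 0 ≤ Y p :=
  le_trans (abs_nonneg _) ((abs_W p).le.trans ((min_le_right _ _).trans (min_le_left _ _)))
lemma Z_nonneg (p : D) : 0 ≤ Z p :=
  le_trans (abs_nonneg _) ((abs_W p).le.trans ((min_le_right _ _).trans (min_le_right _ _)))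

lemma ext' {p q : D} (hX : X p = X q) (hY : Y p = Y q) (hW : W p = W q) : p = q := by
  apply Subtype.ext
  exact Prod.ext hX (Prod.ext hY hW)

/-- constructor -/
def mk' (a b w : ℝ) (h : |w| = min a (min b (1 - a - b))) : D := ⟨(a, b, w), h⟩

@[simp] lemma X_mk' (a b w : ℝ) (h) : X (mk' a b w h) = a := rfl
@[simp] lemma Y_mk' (a b w : ℝ) (h) : Y (mk' a b w h) = b := rfl
@[simp] lemma W_mk' (a b w : ℝ) (h) : W (mk' a b w h) = w := rfl
@[simp] lemma Z_mk' (a b w : ℝ) (h) : Z (mk' a b w h) = 1 - a - b := rfl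

/-- the vertex `(1,0,0)` -/
def v1 : D := mk' 1 0 0 (by norm_num)

/-- Total constructor. -/
noncomputable def mkt (a b w : ℝ) : D :=
  open Classical in if h : |w| = min a (min b (1 - a - b)) then mk' a b w h else v1

lemma mkt_eq {a b w : ℝ} (h : |w| = min a (min b (1 - a - b))) : mkt a b w = mk' a b w h := by
  unfold mkt; rw [dif_pos h]

lemma X_mkt {a b w : ℝ} (h : |w| = min a (min b (1 - a - b))) : X (mkt a b w) = a := by
  rw [mkt_eq h]; rfl
lemma Y_mkt {a b w : ℝ} (h : |w| = min a (min b (1 - a - b))) : Y (mkt a b w) = b := by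
  rw [mkt_eq h]; rfl
lemma W_mkt {a b w : ℝ} (h : |w| = min a (min b (1 - a - b))) : W (mkt a b w) = w := by
  rw [mkt_eq h]; rfl
lemma Z_mkt {a b w : ℝ} (h : |w| = min a (min b (1 - a - b))) : Z (mkt a b w) = 1 - a - b := by
  rw [mkt_eq h]; rfl

lemma continuousOn_mkt {T : Type*} [TopologicalSpace T] {s : Set T} {a b w : T → ℝ}
    (ha : ContinuousOn a s) (hb : ContinuousOn b s) (hw : ContinuousOn w s)
    (h : ∀ t ∈ s, |w t| = min (a t) (min (b t) (1 - a t - b t))) :
    ContinuousOn (fun t => mkt (a t) (b t) (w t)) s := by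
  rw [continuousOn_iff_continuous_domRestrict]
  have h1 : s.domRestrict (fun t => mkt (a t) (b t) (w t)) =
      fun t : s => (⟨(a t, b t, w t), h t.1 t.2⟩ : D) := by
    funext t
    exact mkt_eq (h t.1 t.2)
  rw [h1]
  refine Continuous.subtype_mk (p := fun p : ℝ × ℝ × ℝ =>
    |p.2.2| = min p.1 (min p.2.1 (1 - p.1 - p.2.1))) ?_ fun t => h t.1 t.2
  exact (continuousOn_iff_continuous_domRestrict.1 ha).prodMk
    ((continuousOn_iff_continuous_domRestrict.1 hb).prodMk
      (continuousOn_iff_continuous_domRestrict.1 hw))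

/-- `sign w * m` is continuous if `m` vanishes with `w`. -/
lemma continuous_sign_mul {T : Type*} [TopologicalSpace T] {w m : T → ℝ} (hw : Continuous w)
    (hm : Continuous m) (h : ∀ t, w t = 0 → m t = 0) :
    Continuous fun t => Real.sign (w t) * m t := by
  rw [continuous_iff_continuousAt]
  intro t
  by_cases ht : w t = 0
  · have h0 : Real.sign (w t) * m t = 0 := by rw [h t ht, mul_zero]
    have hb : ∀ s, |Real.sign (w s) * m s| ≤ |m s| := by
      intro s
      rw [abs_mul]
      have : |Real.sign (w s)| ≤ 1 := by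
        rcases Real.sign_apply_eq (w s) with h | h | h <;> rw [h] <;> norm_num
      calc |Real.sign (w s)| * |m s| ≤ 1 * |m s| := by gcongr
        _ = _ := one_mul _
    rw [ContinuousAt, h0]
    refine squeeze_zero_norm (a := fun s => |m s|) (fun s => ?_) ?_
    · rw [Real.norm_eq_abs]; exact hb s
    · have := (hm.abs.continuousAt (x := t)).tendsto
      rwa [h t ht, abs_zero] at this
  · rcases lt_or_gt_of_ne ht with hlt | hgt
    · have : ∀ᶠ s in 𝓝 t, Real.sign (w s) * m s = -1 * m s := by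
        filter_upwards [hw.continuousAt.eventually_lt continuousAt_const hlt] with s hs
        rw [Real.sign_of_neg hs]
      exact (continuous_const.mul hm).continuousAt.congr (Filter.EventuallyEq.symm this)
    · have : ∀ᶠ s in 𝓝 t, Real.sign (w s) * m s = 1 * m s := by
        filter_upwards [continuousAt_const.eventually_lt hw.continuousAt hgt] with s hs
        rw [Real.sign_of_pos hs]
      exact (continuous_const.mul hm).continuousAt.congr (Filter.EventuallyEq.symm this)

/-! sorted coordinates -/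

noncomputable def mx (p : D) : ℝ := max (X p) (max (Y p) (Z p))
noncomputable def mn (p : D) : ℝ := min (X p) (min (Y p) (Z p))
noncomputable def md (p : D) : ℝ := 1 - mx p - mn p

noncomputable def T1 (p : D) : ℝ := mx p - md p
noncomputable def T2 (p : D) : ℝ := 2 * (md p - mn p)
noncomputable def T3 (p : D) : ℝ := 3 * mn p

noncomputable def V (p : D) : ℝ := (X p - Y p) * (Y p - Z p) * (X p - Z p)

@[fun_prop] lemma continuous_mx : Continuous mx := by unfold mx; fun_prop
@[fun_prop] lemma continuous_mn : Continuous mn := by unfold mn; fun_prop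
@[fun_prop] lemma continuous_md : Continuous md := by unfold md; fun_prop
@[fun_prop] lemma continuous_T1 : Continuous T1 := by unfold T1; fun_prop
@[fun_prop] lemma continuous_T2 : Continuous T2 := by unfold T2; fun_prop
@[fun_prop] lemma continuous_T3 : Continuous T3 := by unfold T3; fun_prop
@[fun_prop] lemma continuous_V : Continuous V := by unfold V; fun_prop

lemma abs_W_eq_mn (p : D) : |W p| = mn p := abs_W p

lemma mn_nonneg (p : D) : 0 ≤ mn p := by rw [← abs_W_eq_mn]; exact abs_nonneg _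

/-- the six orderings -/
lemma order_cases (p : D) :
    (Y p ≤ X p ∧ Z p ≤ Y p ∧ mx p = X p ∧ md p = Y p ∧ mn p = Z p) ∨
    (Z p ≤ X p ∧ Y p ≤ Z p ∧ mx p = X p ∧ md p = Z p ∧ mn p = Y p) ∨
    (X p ≤ Y p ∧ Z p ≤ X p ∧ mx p = Y p ∧ md p = X p ∧ mn p = Z p) ∨
    (Z p ≤ Y p ∧ X p ≤ Z p ∧ mx p = Y p ∧ md p = Z p ∧ mn p = X p) ∨
    (X p ≤ Z p ∧ Y p ≤ X p ∧ mx p = Z p ∧ md p = X p ∧ mn p = Y p) ∨
    (Y p ≤ Z p ∧ X p ≤ Y p ∧ mx p = Z p ∧ md p = Y p ∧ mn p = X p) := by
  have hs := sum_eq p
  have h1 : ∀ a b c : ℝ, a + b + c = 1 → 1 - a - b = c := by intro a b c h; linarith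
  unfold md mx mn
  rcases le_total (X p) (Y p) with hxy | hxy <;> rcases le_total (Y p) (Z p) with hyz | hyz <;>
    rcases le_total (X p) (Z p) with hxz | hxz
  · right; right; right; right; right
    refine ⟨hyz, hxy, ?_, ?_, ?_⟩
    · rw [max_eq_right hyz, max_eq_right hxz]
    · rw [max_eq_right hyz, max_eq_right hxz, min_eq_left hyz, min_eq_left hxy]; linarith
    · rw [min_eq_left hyz, min_eq_left hxy]
  · have e1 : X p = Z p := le_antisymm (hxy.trans hyz) hxz
    have e2 : X p = Y p := le_antisymm hxy (by rw [e1]; exact hyz)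
    left
    have e3 : Y p = Z p := by rw [← e2, e1]
    refine ⟨e2.ge, e3.ge, ?_, ?_, ?_⟩ <;> simp [e1, e3] <;> linarith
  · right; right; right; left
    refine ⟨hyz, hxz, ?_, ?_, ?_⟩
    · rw [max_eq_left hyz, max_eq_right hxy]
    · rw [max_eq_left hyz, max_eq_right hxy, min_eq_right hyz, min_eq_left hxz]; linarith
    · rw [min_eq_right hyz, min_eq_left hxz]
  · right; right; left
    refine ⟨hxy, hxz, ?_, ?_, ?_⟩
    · rw [max_eq_left hyz, max_eq_right hxy]
    · rw [max_eq_left hyz, max_eq_right hxy, min_eq_right hyz, min_eq_right hxz]; linarith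
    · rw [min_eq_right hyz, min_eq_right hxz]
  · right; right; right; right; left
    refine ⟨hxz, hxy, ?_, ?_, ?_⟩
    · rw [max_eq_right hyz, max_eq_right hxz]
    · rw [max_eq_right hyz, max_eq_right hxz, min_eq_left hyz, min_eq_right hxy]; linarith
    · rw [min_eq_left hyz, min_eq_right hxy]
  · right; left
    refine ⟨hxz, hyz, ?_, ?_, ?_⟩
    · rw [max_eq_right hyz, max_eq_left hxz]
    · rw [max_eq_right hyz, max_eq_left hxz, min_eq_left hyz, min_eq_right hxy]; linarith
    · rw [min_eq_left hyz, min_eq_right hxy]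
  · have e1 : X p = Z p := le_antisymm hxz (hyz.trans hxy)
    have e2 : X p = Y p := le_antisymm (by rw [e1]; exact hyz) hxy
    left
    have e3 : Y p = Z p := by rw [← e2, e1]
    refine ⟨e2.ge, e3.ge, ?_, ?_, ?_⟩ <;> simp [e1, e3] <;> linarith
  · left
    refine ⟨hxy, hyz, ?_, ?_, ?_⟩
    · rw [max_eq_left hyz, max_eq_left hxy]
    · rw [max_eq_left hyz, max_eq_left hxy, min_eq_right hyz, min_eq_right hxz]; linarith
    · rw [min_eq_right hyz, min_eq_right hxz]

lemma T1_nonneg (p : D) : 0 ≤ T1 p := by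
  unfold T1
  rcases order_cases p with h | h | h | h | h | h <;> obtain ⟨h1, h2, e1, e2, e3⟩ := h <;>
    rw [e1, e2] <;> linarith

lemma T2_nonneg (p : D) : 0 ≤ T2 p := by
  unfold T2
  rcases order_cases p with h | h | h | h | h | h <;> obtain ⟨h1, h2, e1, e2, e3⟩ := h <;>
    rw [e2, e3] <;> linarith

lemma T3_nonneg (p : D) : 0 ≤ T3 p := by
  unfold T3
  have := mn_nonneg p
  linarith

lemma T_sum (p : D) : T1 p + T2 p + T3 p = 1 := by
  unfold T1 T2 T3 md; ring

lemma T3_eq (p : D) : T3 p = 1 - T1 p - T2 p := by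
  have := T_sum p; linarith

/-- the minimum of the new coordinates -/
noncomputable def Tm (p : D) : ℝ := min (T1 p) (min (T2 p) (T3 p))

@[fun_prop] lemma continuous_Tm : Continuous Tm := by unfold Tm; fun_prop

lemma Tm_nonneg (p : D) : 0 ≤ Tm p := le_min (T1_nonneg p) (le_min (T2_nonneg p) (T3_nonneg p))

lemma abs_V (p : D) : |V p| = T1 p * (T2 p / 2) * (T1 p + T2 p / 2) := by
  unfold V T1 T2
  have key : ∀ a b c : ℝ, b ≤ a → c ≤ b → |(a - b) * (b - c) * (a - c)| =
      (a - b) * (2 * (b - c) / 2) * (a - b + 2 * (b - c) / 2) := by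
    intro a b c h1 h2
    rw [abs_of_nonneg (mul_nonneg (mul_nonneg (by linarith) (by linarith)) (by linarith))]
    ring
  rcases order_cases p with h | h | h | h | h | h <;> obtain ⟨h1, h2, e1, e2, e3⟩ := h <;>
    rw [e1, e2, e3, ← key _ _ _ h1 h2] <;>
    first
      | exact abs_eq_abs.2 (Or.inl (by ring1))
      | exact abs_eq_abs.2 (Or.inr (by ring1))

lemma Tm_eq_zero {p : D} (h : W p * V p = 0) : Tm p = 0 := by
  apply le_antisymm _ (Tm_nonneg p)
  unfold Tm
  rcases mul_eq_zero.1 h with h | h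
  · have h1 : T3 p = 0 := by
      unfold T3; rw [← abs_W_eq_mn, h, abs_zero, mul_zero]
    exact (min_le_right _ _).trans ((min_le_right _ _).trans h1.le)
  · have h1 := abs_V p
    rw [h, abs_zero] at h1
    have h2 := T1_nonneg p
    have h3 := T2_nonneg p
    rcases mul_eq_zero.1 h1.symm with h4 | h4
    · rcases mul_eq_zero.1 h4 with h5 | h5
      · exact (min_le_left _ _).trans h5.le
      · exact (min_le_right _ _).trans ((min_le_left _ _).trans (by linarith))
    · exact (min_le_left _ _).trans (by linarith)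

lemma abs_sign_mul {w m : ℝ} (hm : 0 ≤ m) (h : w = 0 → m = 0) : |Real.sign w * m| = m := by
  rcases lt_trichotomy w 0 with hw | hw | hw
  · rw [Real.sign_of_neg hw, abs_mul, abs_of_nonneg hm]; norm_num
  · rw [h hw, mul_zero, abs_zero]
  · rw [Real.sign_of_pos hw, abs_mul, abs_of_nonneg hm]; norm_num

/-- The barycentric subdivision map. -/
noncomputable def F (p : D) : D :=
  mk' (T1 p) (T2 p) (Real.sign (W p * V p) * Tm p) (by
    rw [abs_sign_mul (Tm_nonneg p) Tm_eq_zero, Tm, T3_eq])

@[simp] lemma X_F (p : D) : X (F p) = T1 p := rfl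
@[simp] lemma Y_F (p : D) : Y (F p) = T2 p := rfl
@[simp] lemma Z_F (p : D) : Z (F p) = T3 p := by rw [T3_eq]; rfl
@[simp] lemma W_F (p : D) : W (F p) = Real.sign (W p * V p) * Tm p := rfl

lemma continuous_F : Continuous F := by
  unfold F mk'
  refine Continuous.subtype_mk (p := fun p : ℝ × ℝ × ℝ =>
    |p.2.2| = min p.1 (min p.2.1 (1 - p.1 - p.2.1))) ?_ _
  refine continuous_T1.prodMk (continuous_T2.prodMk ?_)
  exact continuous_sign_mul (by fun_prop) continuous_Tm fun p hp => Tm_eq_zero hp

end D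

end Pool.Agent.Helper93.Thurston
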