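import Mathlib

/-! Winding once around the origin, orientation preserving maps of the plane. -/

namespace Pool.Agent.Helper93.Thurston

open Complex Set Filter Topology

/-- The closed curve `t ↦ γ t`, `0 ≤ t ≤ 2π`, avoids `0` and winds exactly once,
counterclockwise, around `0`. -/
def WindsOnce (γ : ℝ → ℂ) : Prop :=
  ∃ θ : ℝ → ℝ, Continuous θ ∧ θ (2 * Real.pi) = θ 0 + 2 * Real.pi ∧
    ∀ t, γ t ≠ 0 ∧ γ t = ‖γ t‖ * exp (θ t * I)

/-- The small circle around `z` seen through `h`. -/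
noncomputable def circ (h : ℂ → ℂ) (z : ℂ) (r : ℝ) (t : ℝ) : ℂ :=
  h (z + r * exp (t * I)) - h z

/-- `h` preserves the orientation at `z`: the image of every small circle around `z` winds once,
counterclockwise, around `h z`. -/
def OPAt (h : ℂ → ℂ) (z : ℂ) : Prop :=
  ∀ᶠ r in 𝓝[>] (0:ℝ), WindsOnce (circ h z r)

lemma windsOnce_of_close {γ₁ γ₂ : ℝ → ℂ} (h : WindsOnce γ₁) (c₁ : Continuous γ₁)
    (c₂ : Continuous γ₂) (p₁ : γ₁ (2 * Real.pi) = γ₁ 0) (p₂ : γ₂ (2 * Real.pi) = γ₂ 0)
    (hc : ∀ t, ‖γ₂ t - γ₁ t‖ < ‖γ₁ t‖) : WindsOnce γ₂ := by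
  obtain ⟨θ, hθ, h2, h3⟩ := h
  have hq : ∀ t, γ₂ t / γ₁ t ∈ slitPlane := by
    intro t
    have h1 : ‖γ₂ t / γ₁ t - 1‖ < 1 := by
      have hne := (h3 t).1
      have : γ₂ t / γ₁ t - 1 = (γ₂ t - γ₁ t) / γ₁ t := by field_simp
      rw [this, norm_div, div_lt_one (norm_pos_iff.2 hne)]
      exact hc t
    have h4 : |(γ₂ t / γ₁ t - 1).re| < 1 := lt_of_le_of_lt (abs_re_le_norm _) h1
    rw [sub_re, one_re, abs_lt] at h4
    exact Or.inl (by linarith [h4.1])
  have cq : Continuous fun t => γ₂ t / γ₁ t := c₂.div c₁ fun t => (h3 t).1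
  refine ⟨fun t => θ t + (γ₂ t / γ₁ t).arg, ?_, ?_, ?_⟩
  · refine hθ.add ?_
    rw [continuous_iff_continuousAt]
    intro t
    exact ContinuousAt.comp (g := arg) (f := fun t => γ₂ t / γ₁ t) (continuousAt_arg (hq t))
      cq.continuousAt
  · simp only [p₁, p₂, h2]; ring
  · intro t
    have hne := (h3 t).1
    have hqne : γ₂ t / γ₁ t ≠ 0 := slitPlane_ne_zero (hq t)
    have hne2 : γ₂ t ≠ 0 := fun h0 => hqne (by simp [h0])
    refine ⟨hne2, ?_⟩
    have e1 : γ₂ t = γ₁ t * (γ₂ t / γ₁ t) := by field_simp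
    have e2 : (γ₂ t / γ₁ t) = ‖γ₂ t / γ₁ t‖ * exp ((γ₂ t / γ₁ t).arg * I) :=
      (norm_mul_exp_arg_mul_I _).symm
    have e3 : ‖γ₂ t‖ = ‖γ₁ t‖ * ‖γ₂ t / γ₁ t‖ := by
      rw [norm_div]
      have := norm_pos_iff.2 hne
      field_simp
    calc γ₂ t = γ₁ t * (γ₂ t / γ₁ t) := e1
      _ = (‖γ₁ t‖ * exp (θ t * I)) * (‖γ₂ t / γ₁ t‖ * exp ((γ₂ t / γ₁ t).arg * I)) := by
          rw [← e2, ← (h3 t).2]
      _ = _ := by
          rw [e3]
          push_cast
          rw [add_mul, exp_add]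
          ring

lemma periodic_circ (h : ℂ → ℂ) (z : ℂ) (r : ℝ) : circ h z r (2 * Real.pi) = circ h z r 0 := by
  simp only [circ]
  congr 3
  push_cast
  rw [zero_mul, exp_zero, exp_two_pi_mul_I]

lemma windsOnce_circle {a : ℂ} (ha : a ≠ 0) : WindsOnce fun t => a * exp (t * I) := by
  refine ⟨fun t => a.arg + t, by fun_prop, by simp, ?_⟩
  intro t
  refine ⟨mul_ne_zero ha (exp_ne_zero _), ?_⟩
  rw [norm_mul, norm_exp_ofReal_mul_I, mul_one]
  push_cast
  rw [add_mul, exp_add, ← mul_assoc, norm_mul_exp_arg_mul_I]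

/-- real-linear maps `ζ ↦ p ζ + q conj ζ` with `|q| < |p|` -/
lemma windsOnce_linear {p q : ℂ} (h : ‖q‖ < ‖p‖) {r : ℝ} (hr : 0 < r) :
    WindsOnce fun t => p * (r * exp (t * I)) + q * (starRingEnd ℂ) (r * exp (t * I)) := by
  have hp : p ≠ 0 := by
    rintro rfl
    rw [norm_zero] at h
    exact absurd h (not_lt.2 (norm_nonneg _))
  have hpr : p * r ≠ 0 := mul_ne_zero hp (by exact_mod_cast hr.ne')
  refine windsOnce_of_close (windsOnce_circle hpr) (by fun_prop) ?_ ?_ ?_ ?_
  · have : Continuous fun t : ℝ => (r : ℂ) * exp (t * I) := by fun_prop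
    exact (continuous_const.mul this).add (continuous_const.mul (continuous_conj.comp this))
  · push_cast
    rw [zero_mul, exp_zero, exp_two_pi_mul_I]
  · push_cast
    rw [zero_mul, exp_zero, exp_two_pi_mul_I]
  · intro t
    have e : p * (r * exp (t * I)) + q * (starRingEnd ℂ) (r * exp (t * I))
        - p * r * exp (t * I) = q * (starRingEnd ℂ) (r * exp (t * I)) := by ring
    rw [e, norm_mul, RCLike.norm_conj, norm_mul, norm_exp_ofReal_mul_I, norm_mul, norm_mul,
      norm_exp_ofReal_mul_I, mul_one, mul_one, norm_real]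
    exact mul_lt_mul_of_pos_right h (by simpa using hr.ne')

lemma continuous_circ {h : ℂ → ℂ} {U : Set ℂ} (hc : ContinuousOn h U) {z : ℂ} {r : ℝ}
    (hr : 0 ≤ r) (hU : Metric.closedBall z r ⊆ U) : Continuous (circ h z r) := by
  unfold circ
  refine Continuous.sub ?_ continuous_const
  have h1 : Continuous fun t : ℝ => z + r * exp (t * I) := by fun_prop
  refine hc.comp_continuous h1 fun t => hU ?_
  rw [Metric.mem_closedBall, dist_eq_norm, add_sub_cancel_left, norm_mul, norm_exp_ofReal_mul_I,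
    mul_one, norm_real, Real.norm_eq_abs, abs_of_nonneg hr]

/-- lower bound for the image of a circle under an injective map -/
lemma exists_pos_le_circ {h : ℂ → ℂ} {U : Set ℂ} (hc : ContinuousOn h U) (hi : InjOn h U) {z : ℂ}
    {r : ℝ} (hr : 0 < r) (hU : Metric.closedBall z r ⊆ U) :
    ∃ m > 0, ∀ t, m ≤ ‖circ h z r t‖ := by
  have hcont := continuous_circ hc hr.le hU
  have hcomp : IsCompact (Metric.sphere z r) := isCompact_sphere z r
  have hsub : Metric.sphere z r ⊆ U := Metric.sphere_subset_closedBall.trans hU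
  have hne : (Metric.sphere z r).Nonempty := NormedSpace.sphere_nonempty.2 hr.le
  have hg : ContinuousOn (fun w => ‖h w - h z‖) (Metric.sphere z r) :=
    ((hc.mono hsub).sub continuousOn_const).norm
  obtain ⟨w, hw, hmin⟩ := hcomp.exists_isMinOn hne hg
  refine ⟨‖h w - h z‖, ?_, ?_⟩
  · rw [gt_iff_lt, norm_pos_iff, sub_ne_zero]
    intro heq
    have := hi (hsub hw) (hU (Metric.mem_closedBall_self hr.le)) heq
    rw [this, mem_sphere_iff_norm, sub_self, norm_zero] at hw
    exact hr.ne hw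
  · intro t
    have hmem : z + r * exp (t * I) ∈ Metric.sphere z r := by
      rw [mem_sphere_iff_norm, add_sub_cancel_left, norm_mul, norm_exp_ofReal_mul_I,
        mul_one, norm_real, Real.norm_eq_abs, abs_of_pos hr]
    exact hmin hmem

/-- Small changes of centre and radius do not change the winding. -/
lemma windsOnce_circ_iff_near {h : ℂ → ℂ} {U : Set ℂ} (hUo : IsOpen U) (hc : ContinuousOn h U)
    (hi : InjOn h U) {z : ℂ} {r : ℝ} (hr : 0 < r) (hU : Metric.closedBall z r ⊆ U) :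
    ∀ᶠ q : ℂ × ℝ in 𝓝 (z, r), Metric.closedBall q.1 q.2 ⊆ U →
      (WindsOnce (circ h q.1 q.2) ↔ WindsOnce (circ h z r)) := by
  obtain ⟨m, hm, hmle⟩ := exists_pos_le_circ hc hi hr hU
  -- uniform closeness
  have key : ∀ᶠ q : ℂ × ℝ in 𝓝 (z, r), ∀ t ∈ Icc (0:ℝ) (2 * Real.pi),
      ‖circ h q.1 q.2 t - circ h z r t‖ < m / 3 := by
    have hcont : ∀ t : ℝ, ContinuousAt (fun p : (ℂ × ℝ) × ℝ => circ h p.1.1 p.1.2 p.2)
        ((z, r), t) := by
      intro t
      unfold circ
      have hzt : z + r * exp (t * I) ∈ U := hU (by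
        rw [Metric.mem_closedBall, dist_eq_norm, add_sub_cancel_left, norm_mul,
          norm_exp_ofReal_mul_I, mul_one, norm_real, Real.norm_eq_abs, abs_of_pos hr])
      have hz : z ∈ U := hU (Metric.mem_closedBall_self hr.le)
      refine ContinuousAt.sub ?_ ?_
      · have h1 : ContinuousAt (fun p : (ℂ × ℝ) × ℝ => p.1.1 + p.1.2 * exp (p.2 * I))
            ((z, r), t) := by
          apply Continuous.continuousAt
          fun_prop
        exact ContinuousAt.comp (g := h) (f := fun p : (ℂ × ℝ) × ℝ => p.1.1 + p.1.2 * exp (p.2 * I))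
          (hc.continuousAt (hUo.mem_nhds hzt)) h1
      · have h1 : ContinuousAt (fun p : (ℂ × ℝ) × ℝ => p.1.1) ((z, r), t) := by
          apply Continuous.continuousAt
          fun_prop
        exact ContinuousAt.comp (g := h) (f := fun p : (ℂ × ℝ) × ℝ => p.1.1)
          (hc.continuousAt (hUo.mem_nhds hz)) h1
    refine IsCompact.eventually_forall_of_forall_eventually (x₀ := (z, r))
      (K := Icc (0:ℝ) (2 * Real.pi))
      (P := fun (q : ℂ × ℝ) (t : ℝ) => ‖circ h q.1 q.2 t - circ h z r t‖ < m / 3)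
      isCompact_Icc ?_
    intro t _
    have hA : ContinuousAt (fun p : (ℂ × ℝ) × ℝ => circ h p.1.1 p.1.2 p.2) ((z, r), t) := hcont t
    have hB : ContinuousAt (fun p : (ℂ × ℝ) × ℝ => circ h z r p.2) ((z, r), t) :=
      ((continuous_circ hc hr.le hU).comp continuous_snd).continuousAt
    have hC : ContinuousAt (fun p : (ℂ × ℝ) × ℝ => ‖circ h p.1.1 p.1.2 p.2 - circ h z r p.2‖)
      ((z, r), t) := (hA.sub hB).norm
    have hD : ‖circ h z r t - circ h z r t‖ < m / 3 := by
      rw [sub_self, norm_zero]; positivity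
    exact (hC.tendsto).eventually (gt_mem_nhds hD)
  have hrpos : ∀ᶠ q : ℂ × ℝ in 𝓝 (z, r), 0 < q.2 := by
    have : ContinuousAt (fun q : ℂ × ℝ => q.2) (z, r) := by
      apply Continuous.continuousAt; fun_prop
    exact continuousAt_const.eventually_lt this hr
  filter_upwards [key, hrpos] with q hq hq2 hqU
  have hper : ∀ t, ‖circ h q.1 q.2 t - circ h z r t‖ < m / 3 := by
    intro t
    have hp : ∀ (w : ℂ) (s : ℝ), Function.Periodic (circ h w s) (2 * Real.pi) := by
      intro w s x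
      simp only [circ]
      congr 3
      push_cast
      rw [add_mul, exp_add, exp_two_pi_mul_I, mul_one]
    have hpd : Function.Periodic (fun t => ‖circ h q.1 q.2 t - circ h z r t‖) (2 * Real.pi) := by
      intro x
      simp only [hp q.1 q.2 x, hp z r x]
    obtain ⟨s, hs, hst⟩ := hpd.exists_mem_Ico₀ (by positivity : (0:ℝ) < 2 * Real.pi) t
    have h1 := hq s (Ico_subset_Icc_self hs)
    have h2 : ‖circ h q.1 q.2 t - circ h z r t‖ = ‖circ h q.1 q.2 s - circ h z r s‖ := hst
    rw [h2]; exact h1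
  have c1 := continuous_circ hc hr.le hU
  have c2 := continuous_circ hc hq2.le hqU
  constructor
  · intro hw
    refine windsOnce_of_close hw c2 c1 (periodic_circ _ _ _) (periodic_circ _ _ _) fun t => ?_
    have h1 := hper t
    have h2 := hmle t
    have h3 : ‖circ h z r t‖ ≤ ‖circ h q.1 q.2 t‖ + ‖circ h z r t - circ h q.1 q.2 t‖ := by
      have := norm_add_le (circ h q.1 q.2 t) (circ h z r t - circ h q.1 q.2 t)
      rwa [add_sub_cancel] at this
    rw [norm_sub_rev] at h1
    linarith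
  · intro hw
    refine windsOnce_of_close hw c1 c2 (periodic_circ _ _ _) (periodic_circ _ _ _) fun t => ?_
    have h1 := hper t
    have h2 := hmle t
    linarith

/-- The winding does not depend on the radius. -/
lemma windsOnce_circ_iff_radius {h : ℂ → ℂ} {U : Set ℂ} (hUo : IsOpen U) (hc : ContinuousOn h U)
    (hi : InjOn h U) {z : ℂ} {R : ℝ} (hU : Metric.closedBall z R ⊆ U) {r₁ r₂ : ℝ}
    (h1 : r₁ ∈ Ioc 0 R) (h2 : r₂ ∈ Ioc 0 R) :
    WindsOnce (circ h z r₁) ↔ WindsOnce (circ h z r₂) := by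
  classical
  have hS : IsPreconnected (Ioc (0:ℝ) R) := isPreconnected_Ioc
  have hcont : ContinuousOn (fun r => decide (WindsOnce (circ h z r))) (Ioc (0:ℝ) R) := by
    intro r hr
    have hsub : Metric.closedBall z r ⊆ U := (Metric.closedBall_subset_closedBall hr.2).trans hU
    have hnear := windsOnce_circ_iff_near hUo hc hi hr.1 hsub
    have h3 : ContinuousAt (fun r : ℝ => (z, r)) r := by
      apply Continuous.continuousAt; fun_prop
    have h4 : ∀ᶠ s in 𝓝 r, Metric.closedBall z s ⊆ U →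
        (WindsOnce (circ h z s) ↔ WindsOnce (circ h z r)) := h3.eventually hnear
    have h5 : ∀ᶠ s in 𝓝[Ioc (0:ℝ) R] r,
        decide (WindsOnce (circ h z s)) = decide (WindsOnce (circ h z r)) := by
      filter_upwards [mem_nhdsWithin_of_mem_nhds h4, self_mem_nhdsWithin] with s hs hs2
      have := hs ((Metric.closedBall_subset_closedBall hs2.2).trans hU)
      simp only [this]
    exact (continuousWithinAt_const).congr_of_eventuallyEq h5 rfl
  have hT : IsDiscrete (univ : Set Bool) := by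
    rw [isDiscrete_iff_discreteTopology]; infer_instance
  have := hS.constant_of_mapsTo hT hcont (mapsTo_univ _ _) h1 h2
  simpa using this

lemma OPAt_iff_windsOnce {h : ℂ → ℂ} {U : Set ℂ} (hUo : IsOpen U) (hc : ContinuousOn h U)
    (hi : InjOn h U) {z : ℂ} {R : ℝ} (hR : 0 < R) (hU : Metric.closedBall z R ⊆ U) :
    OPAt h z ↔ WindsOnce (circ h z R) := by
  have hmem : Ioc 0 R ∈ 𝓝[>] (0:ℝ) := Ioc_mem_nhdsGT hR
  constructor
  · intro hop
    obtain ⟨r, hr1, hr2⟩ := (hop.and (eventually_of_mem hmem fun _ h => h)).exists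
    exact (windsOnce_circ_iff_radius hUo hc hi hU hr2 ⟨hR, le_rfl⟩).1 hr1
  · intro hw
    filter_upwards [hmem] with r hr
    exact (windsOnce_circ_iff_radius hUo hc hi hU hr ⟨hR, le_rfl⟩).2 hw

/-- Preserving the orientation is a locally constant property. -/
lemma OPAt_locally_constant {h : ℂ → ℂ} {U : Set ℂ} (hUo : IsOpen U) (hc : ContinuousOn h U)
    (hi : InjOn h U) {z : ℂ} (hz : z ∈ U) : ∀ᶠ w in 𝓝 z, (OPAt h w ↔ OPAt h z) := by
  obtain ⟨R, hR, hRU⟩ := Metric.isOpen_iff.1 hUo z hz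
  have hR3 : (0:ℝ) < R / 3 := by positivity
  have hball : Metric.closedBall z (R / 3) ⊆ U :=
    (Metric.closedBall_subset_ball (by linarith)).trans hRU
  have hnear := windsOnce_circ_iff_near hUo hc hi hR3 hball
  have h3 : ContinuousAt (fun w : ℂ => (w, R / 3)) z := by
    apply Continuous.continuousAt; fun_prop
  have h4 : ∀ᶠ w in 𝓝 z, Metric.closedBall w (R / 3) ⊆ U →
      (WindsOnce (circ h w (R / 3)) ↔ WindsOnce (circ h z (R / 3))) := h3.eventually hnear
  filter_upwards [h4, Metric.ball_mem_nhds z hR3] with w hw hwz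
  have hwU : Metric.closedBall w (R / 3) ⊆ U := by
    intro v hv
    apply hRU
    rw [Metric.mem_ball] at hwz ⊢
    rw [Metric.mem_closedBall] at hv
    have := dist_triangle v w z
    linarith
  rw [OPAt_iff_windsOnce hUo hc hi hR3 hwU, OPAt_iff_windsOnce hUo hc hi hR3 hball]
  exact hw hwU

/-- If an injective continuous map preserves the orientation on a dense set of points, then it
preserves it everywhere. -/
lemma OPAt_of_dense {h : ℂ → ℂ} {U : Set ℂ} (hUo : IsOpen U) (hc : ContinuousOn h U)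
    (hi : InjOn h U) {G : Set ℂ} (hG : ∀ z ∈ U, z ∈ closure G) (hop : ∀ z ∈ G, z ∈ U → OPAt h z)
    {z : ℂ} (hz : z ∈ U) : OPAt h z := by
  have h1 := (OPAt_locally_constant hUo hc hi hz).and (hUo.mem_nhds hz)
  obtain ⟨w, hwG, hw⟩ := (mem_closure_iff_frequently.1 (hG z hz)).and_eventually h1 |>.exists
  exact hw.1.1 (hop w hwG hw.2)

lemma OPAt_of_hasFDerivAt {h : ℂ → ℂ} {U : Set ℂ} (hUo : IsOpen U) (hc : ContinuousOn h U)
    {z : ℂ} (hz : z ∈ U) {p q : ℂ} (hpq : ‖q‖ < ‖p‖) {L : ℂ →L[ℝ] ℂ}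
    (hL : ∀ v, L v = p * v + q * (starRingEnd ℂ) v) (hd : HasFDerivAt h L z) : OPAt h z := by
  obtain ⟨R, hR, hRU⟩ := Metric.isOpen_iff.1 hUo z hz
  set c : ℝ := (‖p‖ - ‖q‖) / 2 with hcdef
  have hcpos : 0 < c := by rw [hcdef]; linarith
  have h1 := hd.isLittleO.def hcpos
  obtain ⟨ε, hε, hεb⟩ := Metric.eventually_nhds_iff.1 h1
  have hmin : 0 < min ε R := lt_min hε hR
  filter_upwards [Ioo_mem_nhdsGT hmin] with r hr
  have hr0 : 0 < r := hr.1
  have hrU : Metric.closedBall z r ⊆ U :=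
    (Metric.closedBall_subset_ball (hr.2.trans_le (min_le_right _ _))).trans hRU
  have c1 := continuous_circ hc hr0.le hrU
  have hw := windsOnce_linear hpq hr0
  refine windsOnce_of_close hw ?_ c1 ?_ (periodic_circ _ _ _) ?_
  · have : Continuous fun t : ℝ => (r : ℂ) * exp (t * I) := by fun_prop
    exact (continuous_const.mul this).add (continuous_const.mul (continuous_conj.comp this))
  · push_cast
    rw [zero_mul, exp_zero, exp_two_pi_mul_I]
  · intro t
    have hv : ‖(r:ℂ) * exp (t * I)‖ = r := by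
      rw [norm_mul, norm_exp_ofReal_mul_I, mul_one, norm_real, Real.norm_eq_abs, abs_of_pos hr0]
    have h2 : dist (z + (r:ℂ) * exp (t * I)) z < ε := by
      rw [dist_eq_norm, add_sub_cancel_left, hv]
      exact hr.2.trans_le (min_le_left _ _)
    have h3 := hεb h2
    rw [add_sub_cancel_left, hL, hv] at h3
    have h4 : ‖p‖ * r - ‖q‖ * r ≤
        ‖p * (r * exp (t * I)) + q * (starRingEnd ℂ) (r * exp (t * I))‖ := by
      have := norm_sub_norm_le (p * (r * exp (t * I))) (-(q * (starRingEnd ℂ) (r * exp (t * I))))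
      rw [sub_neg_eq_add, norm_neg, norm_mul p, norm_mul q, RCLike.norm_conj, hv] at this
      exact this
    have h5 : ‖circ h z r t - (p * (r * exp (t * I)) + q * (starRingEnd ℂ) (r * exp (t * I)))‖
        ≤ c * r := h3
    refine h5.trans_lt ?_
    refine lt_of_lt_of_le ?_ h4
    rw [hcdef]
    have : 0 < (‖p‖ - ‖q‖) * r := mul_pos (by linarith) hr0
    nlinarith

end Pool.Agent.Helper93.Thurston
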